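import Mathlib

set_option autoImplicit false

/-!
Project GP (helper969): the moments `∫ |ζ(1/2+it)|² ∏ |ζ(1/2+i(t+c_j))|² dt` for almost all shifts
`c ∈ [0,T]^n`, with remainder `T^(1/2+ε)`. Definitions and the statements which need Mathlib only.
-/

namespace Pool.Agent.Y969.GP

open Complex Filter Topology MeasureTheory Set

noncomputable section

/-! ### The zeta function, the weight and the Dirichlet polynomial -/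

/-- `|ζ(1/2 + iu)|²` -/
def ff (u : ℝ) : ℝ := ‖riemannZeta (1 / 2 + I * u)‖ ^ 2

/-- the smooth cutoff `V(x) = (1/2) erfc((log x)/2)` -/
def V (x : ℝ) : ℝ := (2 * √Real.pi)⁻¹ * ∫ v in Ioi (Real.log x), Real.exp (-v ^ 2 / 4)

/-- the derivative of `V` -/
def V1 (x : ℝ) : ℝ := -((2 * √Real.pi)⁻¹ * Real.exp (-(Real.log x) ^ 2 / 4) / x)

/-- the factor of the functional equation: `ζ(1-w) = XF w * ζ(w)` -/
def XF (w : ℂ) : ℂ := 2 * (2 * Real.pi : ℂ) ^ (-w) * Gamma w * cos (Real.pi * w / 2)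

/-- height of a pair -/
def ht (p : ℕ × ℕ) : ℝ := (p.1 : ℝ) * p.2

/-- frequency of a pair -/
def lam (p : ℕ × ℕ) : ℝ := Real.log p.2 - Real.log p.1

/-- the pairs of height at most `X` -/
def PS (X : ℕ) : Finset (ℕ × ℕ) :=
  (Finset.Icc 1 X ×ˢ Finset.Icc 1 X).filter fun p => p.1 * p.2 ≤ X

/-- the coprime pairs of height at most `X` -/
def FR (X : ℕ) : Finset (ℕ × ℕ) := (PS X).filter fun p => Nat.Coprime p.1 p.2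

/-- the coefficient of the pair `p` -/
def co (p : ℕ × ℕ) (u : ℝ) : ℝ := 2 * (√(ht p))⁻¹ * V (2 * Real.pi * ht p / u)

/-- the Dirichlet polynomial which approximates `|ζ(1/2 + iu)|²` -/
def PX (X : ℕ) (u : ℝ) : ℂ := ∑ p ∈ PS X, (co p u : ℂ) * cexp (I * ((u * lam p : ℝ) : ℂ))

/-- the coefficient of the reduced fraction `p` after grouping the multiples `(g p.1, g p.2)` -/
def cr (X : ℕ) (p : ℕ × ℕ) (u : ℝ) : ℝ :=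
  ∑ g ∈ (Finset.Icc 1 X).filter (fun g => g * g * (p.1 * p.2) ≤ X), co (g * p.1, g * p.2) u

/-- all the shifts; the first one is `0` -/
def cc {n : ℕ} (c : Fin n → ℝ) : Fin (n + 1) → ℝ := Fin.cons 0 c

/-- the diagonal part of `∏ j, PX X (t + cc c j)` -/
def MX {n : ℕ} (X : ℕ) (c : Fin n → ℝ) (t : ℝ) : ℂ :=
  ∑ q ∈ (Fintype.piFinset fun _ : Fin (n + 1) => PS X).filter
      (fun q => ∏ j, (q j).1 = ∏ j, (q j).2),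
    ∏ j, ((co (q j) (t + cc c j) : ℂ) * cexp (I * (((t + cc c j) * lam (q j) : ℝ) : ℂ)))

/-- the kernel `min (T, 1/|x|)`, up to a factor `2` -/
def mk (T x : ℝ) : ℝ := T / (1 + T * |x|)

/-- Lebesgue measure on the box `[a,T]^n` -/
def mB (n : ℕ) (a T : ℝ) : Measure (Fin n → ℝ) := Measure.pi fun _ => volume.restrict (Icc a T)

/-- the separated shifts -/
def Gd (n : ℕ) (a T : ℝ) : Set (Fin n → ℝ) :=
  {c | (∀ j, a ≤ c j ∧ c j ≤ T) ∧ ∀ i j, i ≠ j → a ≤ |c i - c j|}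

/-! ### Paths -/

/-- the five kinds of paths: right side, circle, left side, bottom, top -/
inductive Kd
  | R | C | L | B | T
  deriving DecidableEq

/-- the paths: sides of the rectangle `[-σ,η] × [-H,H]` and the circle of radius `r` -/
def gam (σ η H r : ℝ) : Kd → ℝ → ℂ
  | Kd.R, θ => (η : ℂ) + I * θ
  | Kd.C, θ => (r : ℂ) * cexp (I * θ)
  | Kd.L, θ => -(σ : ℂ) + I * θ
  | Kd.B, θ => (θ : ℂ) - I * H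
  | Kd.T, θ => (θ : ℂ) + I * H

/-- the parameter intervals -/
def dom (σ η H : ℝ) : Kd → Set ℝ
  | Kd.R => Icc (-H) H
  | Kd.C => Icc 0 (2 * Real.pi)
  | Kd.L => Icc (-H) H
  | Kd.B => Icc (-σ) η
  | Kd.T => Icc (-σ) η

/-- the kernel `2 (u/2π)^s / s²` -/
def kr (u : ℝ) (s : ℂ) : ℂ := 2 * cexp (s * (Real.log (u / (2 * Real.pi)) : ℝ)) / s ^ 2

open Classical in
/-- the weights (kernel, factor `exp(s²)` except on the circle, `ds / (2πi)`) -/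
def wt (σ η H r u : ℝ) (k : Kd) (θ : ℝ) : ℂ :=
  if θ ∈ dom σ η H k then
    match k with
    | Kd.R => kr u (gam σ η H r k θ) * cexp (gam σ η H r k θ ^ 2) / (2 * Real.pi)
    | Kd.C => kr u (gam σ η H r k θ) * gam σ η H r k θ / (2 * Real.pi)
    | Kd.L => kr u (gam σ η H r k θ) * cexp (gam σ η H r k θ ^ 2) / (2 * Real.pi)
    | Kd.B => -(kr u (gam σ η H r k θ) * cexp (gam σ η H r k θ ^ 2) / (2 * Real.pi * I))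
    | Kd.T => kr u (gam σ η H r k θ) * cexp (gam σ η H r k θ ^ 2) / (2 * Real.pi * I)
  else 0

/-- integral over a product of paths -/
def hyb {K : ℕ} (σ η H r : ℝ) (u : Fin K → ℝ) (k : Fin K → Kd) (Ψ : (Fin K → ℂ) → ℂ) : ℂ :=
  ∫ θ : Fin K → ℝ, Ψ (fun j => gam σ η H r (k j) (θ j)) * ∏ j, wt σ η H r (u j) (k j) (θ j)

/-- its absolute version -/
def hybn {K : ℕ} (σ η H r : ℝ) (u : Fin K → ℝ) (k : Fin K → Kd) (Ψ : (Fin K → ℂ) → ℂ) : ℝ :=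
  ∫ θ : Fin K → ℝ, ‖Ψ (fun j => gam σ η H r (k j) (θ j))‖ * ∏ j, ‖wt σ η H r (u j) (k j) (θ j)‖

/-- the mixed kinds: circles before `j`, the kind `κ` at `j`, right sides after `j` -/
def mix {K : ℕ} (j : Fin K) (κ : Kd) : Fin K → Kd :=
  fun i => if i < j then Kd.C else if i = j then κ else Kd.R

/-- the region where `s_j` is free in the rectangle and the other `s_i` are near the imaginary axis -/
def Bx {K : ℕ} (j : Fin K) (σ η H : ℝ) : Set (Fin K → ℂ) :=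
  {s | (∀ i, |(s i).im| ≤ H) ∧ (∀ i, i ≠ j → |(s i).re| ≤ η) ∧ -σ ≤ (s j).re ∧ (s j).re ≤ η}

/-! ### Statements -/

/-- V: facts on the weight -/
def S_V : Prop :=
  (∀ x : ℝ, 0 < x → 0 ≤ V x ∧ V x ≤ 1) ∧
  (∀ x : ℝ, 0 < x → HasDerivAt V (V1 x) x) ∧
  (∀ x : ℝ, 0 < x → DifferentiableAt ℝ V1 x) ∧
  (∃ C : ℝ, 0 < C ∧ ∀ x : ℝ, 0 < x → |x * V1 x| ≤ C ∧ |x ^ 2 * deriv V1 x| ≤ C) ∧
  ContinuousOn (deriv V1) (Ioi 0) ∧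
  (∀ A : ℝ, 0 ≤ A → ∃ C : ℝ, 0 < C ∧ ∀ x : ℝ, 0 < x → V x ≤ C * x ^ (-A)) ∧
  (∀ σ x : ℝ, 0 < σ → 0 < x → ((V x : ℝ) : ℂ) = ((2 * Real.pi : ℝ) : ℂ)⁻¹ *
    ∫ y : ℝ, cexp (-((σ + I * y) * (Real.log x : ℝ))) * cexp ((σ + I * y) ^ 2) / (σ + I * y))

/-- CHI: two factors of the functional equation -/
def S_CHI : Prop := ∀ c : ℝ, 0 < c → c < 1 → ∃ (C : ℝ) (A : ℕ), 0 < C ∧ ∀ u y : ℝ, 1 ≤ u →
  ‖XF (1 / 2 + (c + I * y) + I * u) * XF (1 / 2 + (c + I * y) - I * u) *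
    cexp (-(2 * (c + I * y) * (Real.log (u / (2 * Real.pi)) : ℝ))) - 1‖ ≤ C * (1 + |y|) ^ A / u

/-- AFE: smooth approximate functional equation for `|ζ(1/2+iu)|²` -/
def S_AFE : Prop := ∀ ε : ℝ, 0 < ε → ∃ C : ℝ, 0 < C ∧ ∀ (u : ℝ) (X : ℕ), 1 ≤ u → u ^ (1 + ε) ≤ X →
  ‖(ff u : ℂ) - PX X u‖ ≤ C * u ^ (-(1 / 2) + ε)

/-- SP: reduced fractions of height at most `X` are spaced by `1/(2X)`, and the row sums of `mk` -/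
def S_SP : Prop :=
  (∀ (X : ℕ) (p q : ℕ × ℕ), p ∈ FR X → q ∈ FR X → p ≠ q → 1 / (2 * (X : ℝ)) ≤ |lam p - lam q|) ∧
  ∃ C : ℝ, 0 < C ∧ ∀ (X : ℕ) (T θ : ℝ), 1 ≤ X → 1 ≤ T →
    ∑ p ∈ FR X, mk T (lam p - θ) ≤ C * ((T + X) * (1 + Real.log X))

/-- LSW: large sieve in several variables with amplitudes of bounded variation -/
def S_LSW : Prop := ∀ n : ℕ, ∃ C : ℝ, 0 < C ∧ ∀ (X : ℕ) (a T : ℝ), 1 ≤ X → 1 ≤ T → 0 ≤ a → a ≤ T →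
  ∀ (A A' : Fin n → ℕ × ℕ → ℝ → ℂ) (B : (Fin n → ℕ × ℕ) → ℂ) (w : Fin n → ℕ × ℕ → ℝ),
  (∀ j, ∀ p ∈ FR X, ∀ x ∈ Icc a T, HasDerivAt (A j p) (A' j p x) x) →
  (∀ j, ∀ p ∈ FR X, ContinuousOn (A' j p) (Icc a T)) →
  (∀ j, ∀ p ∈ FR X, ∀ x ∈ Icc a T, ‖A j p x‖ ≤ w j p) →
  (∀ j, ∀ p ∈ FR X, ∫ x in a..T, ‖A' j p x‖ ≤ w j p) →
  ∫ c, ‖∑ q ∈ Fintype.piFinset (fun _ : Fin n => FR X),
      B q * ∏ j, (A j (q j) (c j) * cexp (I * ((c j * lam (q j) : ℝ) : ℂ)))‖ ^ 2 ∂(mB n a T) ≤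
    (C * ((T + X) * (1 + Real.log X))) ^ n *
      ∑ q ∈ Fintype.piFinset (fun _ : Fin n => FR X), ‖B q‖ ^ 2 * ∏ j, w j (q j) ^ 2

/-- OFF: the off-diagonal sum -/
def S_OFF : Prop := ∀ (K : ℕ) (κ : ℝ), 0 < κ → ∃ C : ℝ, 0 < C ∧ ∀ (X : ℕ) (T : ℝ), 1 ≤ X → 1 ≤ T →
  ∑ q ∈ (Fintype.piFinset (fun _ : Fin K => FR X)).filter
      (fun q => ∏ j, (q j).1 ≠ ∏ j, (q j).2),
    (∏ j, (ht (q j))⁻¹) * mk T (∑ j, lam (q j)) ≤ C * (X : ℝ) ^ κ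

/-- CR: grouping into reduced fractions, and bounds for the coefficients -/
def S_CR : Prop :=
  (∀ (X : ℕ) (u : ℝ), PX X u = ∑ p ∈ FR X, (cr X p u : ℂ) * cexp (I * ((u * lam p : ℝ) : ℂ))) ∧
  (∀ (n X : ℕ) (c : Fin n → ℝ) (t : ℝ),
    MX X c t = ∑ q ∈ (Fintype.piFinset fun _ : Fin (n + 1) => FR X).filter
      (fun q => ∏ j, (q j).1 = ∏ j, (q j).2),
      ∏ j, ((cr X (q j) (t + cc c j) : ℂ) * cexp (I * (((t + cc c j) * lam (q j) : ℝ) : ℂ)))) ∧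
  ∃ C : ℝ, 0 < C ∧ ∀ (X : ℕ) (p : ℕ × ℕ), p ∈ FR X → ∀ u : ℝ, 0 < u →
    DifferentiableAt ℝ (cr X p) u ∧ DifferentiableAt ℝ (deriv (cr X p)) u ∧
    ContinuousAt (deriv (deriv (cr X p))) u ∧
    |cr X p u| ≤ C * (1 + Real.log X) * (√(ht p))⁻¹ ∧
    |u * deriv (cr X p) u| ≤ C * (1 + Real.log X) * (√(ht p))⁻¹ ∧
    |u ^ 2 * deriv (deriv (cr X p)) u| ≤ C * (1 + Real.log X) * (√(ht p))⁻¹

/-- VAR: the off-diagonal part, mean square over the shifts -/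
def S_VAR : Prop := ∀ n : ℕ, ∃ K : ℝ, 0 < K ∧ ∀ ε : ℝ, 0 < ε → ε < 1 → ∃ T₀ : ℝ, 1 ≤ T₀ ∧
  ∀ (T a S : ℝ) (X : ℕ), T₀ ≤ T → T ^ (1 - ε) ≤ a → a ≤ T → 1 ≤ S → S ≤ T → 1 ≤ X →
  (X : ℝ) ≤ T ^ (1 + ε) →
  ∫ c, ‖∫ t in (1 : ℝ)..S, (∏ j, PX X (t + cc c j) - MX X c t)‖ ^ 2 ∂(mB n a T) ≤
    T ^ ((n : ℝ) + 1 + K * ε)

/-- SM: second moment of zeta -/
def S_SM : Prop := ∃ C : ℝ, 0 < C ∧ ∀ T : ℝ, 2 ≤ T → ∫ u in (0:ℝ)..(2 * T), ff u ≤ C * T * Real.log T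

/-- RPL: replacement of zeta by the Dirichlet polynomials -/
def S_RPL : Prop := ∀ n : ℕ, ∃ K : ℝ, 0 < K ∧ ∀ ε : ℝ, 0 < ε → ε < 1 / 4 → ∃ T₀ : ℝ, 1 ≤ T₀ ∧
  ∀ (T a S : ℝ) (X : ℕ), T₀ ≤ T → T ^ (1 - ε) ≤ a → a ≤ T → 1 ≤ S → S ≤ T → T ^ (1 + ε) ≤ X →
  ∫ c, (∫ t in (1 : ℝ)..S, ‖((∏ j, ff (t + cc c j) : ℝ) : ℂ) - ∏ j, PX X (t + cc c j)‖) ∂(mB n a T) ≤
    T ^ ((n : ℝ) + 1 / 2 + K * ε)

/-- D1: Cauchy's theorem for one variable -/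
def S_D1 : Prop := ∀ (σ η H r u : ℝ) (h : ℂ → ℂ), 0 < r → r < σ → r < η → r < H → 0 < u →
  (∀ s : ℂ, -σ ≤ s.re → s.re ≤ η → |s.im| ≤ H → DifferentiableAt ℂ h s) →
  ∫ θ, h (gam σ η H r Kd.R θ) * wt σ η H r u Kd.R θ =
    (∫ θ, h (gam σ η H r Kd.C θ) * wt σ η H r u Kd.C θ) +
    (∫ θ, h (gam σ η H r Kd.L θ) * wt σ η H r u Kd.L θ) +
    (∫ θ, h (gam σ η H r Kd.B θ) * wt σ η H r u Kd.B θ) +
    ∫ θ, h (gam σ η H r Kd.T θ) * wt σ η H r u Kd.T θ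

/-- D2: the radius of the circle -/
def S_D2 : Prop := ∀ (σ η H r r' u : ℝ) (h : ℂ → ℂ), 0 < r → r ≤ r' → 0 < u →
  (∀ s : ℂ, ‖s‖ ≤ r' → DifferentiableAt ℂ h s) →
  ∫ θ, h (gam σ η H r Kd.C θ) * wt σ η H r u Kd.C θ =
    ∫ θ, h (gam σ η H r' Kd.C θ) * wt σ η H r' u Kd.C θ

/-- TEL: replacement of all right sides by circles -/
def S_TEL : Prop := ∀ (K : ℕ) (σ η H r : ℝ) (u : Fin K → ℝ) (Ψ : (Fin K → ℂ) → ℂ), 0 < r → r < σ →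
  r < η → r < H → (∀ j, 0 < u j) →
  (∀ j, ∀ s ∈ Bx j σ η H, DifferentiableAt ℂ (fun z => Ψ (Function.update s j z)) (s j)) →
  (∀ j, ContinuousOn Ψ (Bx j σ η H)) →
  ‖hyb σ η H r u (fun _ => Kd.R) Ψ - hyb σ η H r u (fun _ => Kd.C) Ψ‖ ≤
    ∑ j, (hybn σ η H r u (mix j Kd.L) Ψ + hybn σ η H r u (mix j Kd.B) Ψ +
      hybn σ η H r u (mix j Kd.T) Ψ)

/-- TEL2: the radii of all circles -/
def S_TEL2 : Prop := ∀ (K : ℕ) (σ η H r r' : ℝ) (u : Fin K → ℝ) (Ψ : (Fin K → ℂ) → ℂ), 0 < r →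
  r ≤ r' → (∀ j, 0 < u j) →
  (∀ j, ∀ s : Fin K → ℂ, (∀ i, ‖s i‖ ≤ r') →
    DifferentiableAt ℂ (fun z => Ψ (Function.update s j z)) (s j)) →
  ContinuousOn Ψ {s | ∀ i, ‖s i‖ ≤ r'} →
  hyb σ η H r u (fun _ => Kd.C) Ψ = hyb σ η H r' u (fun _ => Kd.C) Ψ

/-- ZL: mean square of zeta on the lines to the right of the critical line -/
def S_ZL : Prop := ∀ κ : ℝ, 0 < κ → ∃ C : ℝ, 0 < C ∧ ∀ x T : ℝ, 1 / 2 ≤ x → x ≤ 2 → 1 ≤ T →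
  (∫ v in (1 : ℝ)..T, ‖riemannZeta (x + I * v)‖ ^ 2 ≤ C * T ^ (1 + κ))

/-- ZP: pointwise bounds for zeta -/
def S_ZP : Prop :=
  (∀ η : ℝ, 0 < η → η ≤ 1 / 8 → ∃ C : ℝ, 0 < C ∧ ∀ s : ℂ, 1 - 2 * η ≤ s.re → 1 ≤ |s.im| →
    ‖riemannZeta s‖ ≤ C * |s.im| ^ (3 * η)) ∧
  ∃ C : ℝ, 0 < C ∧ ∀ s : ℂ, -1 / 2 ≤ s.re → s.re ≤ 1 →
    ‖s * riemannZeta (1 + 2 * s)‖ ≤ C * (1 + |s.im|) ^ 4

end

end Pool.Agent.Y969.GP
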