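import Pool.Agent.Y969.GP.Def2

set_option autoImplicit false

/-! Project GP: the main term as an integral over circles, bounds for the weights. -/

namespace Pool.Agent.Y969.GP

open Complex Filter Topology MeasureTheory Set

noncomputable section

lemma Z1_ne {s : ℂ} (h : s ≠ 0) : Z1 s = s * riemannZeta (1 + 2 * s) := by
  unfold Z1
  rw [Function.update_of_ne h]

lemma gam_C_ne {σ η H r θ : ℝ} (hr : 0 < r) : gam σ η H r Kd.C θ ≠ 0 := by
  unfold gam
  exact mul_ne_zero (by exact_mod_cast hr.ne') (Complex.exp_ne_zero _)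

/-- the main term is the integral over circles of radius `1/8` -/
lemma RR_eq {n : ℕ} (σ η H : ℝ) (c : Fin n → ℝ) (t : ℝ) :
    RR c t = hyb σ η H (1 / 8) (fun j => t + cc c j) (fun _ => Kd.C) (Ps c) := by
  unfold RR torusIntegral hyb
  have hset : MeasurableSet (Icc (0 : Fin (n + 1) → ℝ) (fun _ => 2 * Real.pi)) := measurableSet_Icc
  rw [← integral_indicator hset, ← integral_const_mul]
  refine integral_congr_ae (Eventually.of_forall fun θ => ?_)
  simp only [smul_eq_mul]
  by_cases hθ : θ ∈ Icc (0 : Fin (n + 1) → ℝ) (fun _ => 2 * Real.pi)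
  · rw [indicator_of_mem hθ]
    have hd : ∀ j, θ j ∈ dom σ η H Kd.C := fun j => ⟨hθ.1 j, hθ.2 j⟩
    have hg : ∀ j, torusMap (fun _ => 0) (fun _ => (1 / 8 : ℝ)) θ j = gam σ η H (1 / 8) Kd.C (θ j) := by
      intro j
      unfold torusMap gam
      push_cast
      rw [zero_add, mul_comm (θ j : ℂ) I]
    have hg0 : ∀ j, gam σ η H (1 / 8) Kd.C (θ j) ≠ 0 := fun j => gam_C_ne (by norm_num)
    have hgf : torusMap (fun _ => 0) (fun _ => (1 / 8 : ℝ)) θ = fun j => gam σ η H (1 / 8) Kd.C (θ j) :=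
      funext hg
    rw [hgf]
    set g : Fin (n + 1) → ℂ := fun j => gam σ η H (1 / 8) Kd.C (θ j) with hgdef
    have hw : ∀ j, wt σ η H (1 / 8) (t + cc c j) Kd.C (θ j) =
        kr (t + cc c j) (g j) * g j / (2 * Real.pi) := by
      intro j
      unfold wt
      rw [if_pos (hd j)]
    have e1 : (∏ j, wt σ η H (1 / 8) (t + cc c j) Kd.C (θ j)) =
        ∏ j, (kr (t + cc c j) (g j) * g j / (2 * Real.pi)) := Finset.prod_congr rfl fun j _ => hw j
    rw [e1]
    unfold Ps
    have e2 : (∏ j, Z1 (g j)) = ∏ j, (g j * riemannZeta (1 + 2 * g j)) :=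
      Finset.prod_congr rfl fun j _ => Z1_ne (hg0 j)
    rw [e2]
    have e3 : (∏ i, ∏ l, riemannZeta (1 + g i + g l + I * (cc c i - cc c l))) =
        (∏ i, riemannZeta (1 + 2 * g i)) *
          ∏ i, ∏ l ∈ Finset.univ.erase i, riemannZeta (1 + g i + g l + I * (cc c i - cc c l)) := by
      rw [← Finset.prod_mul_distrib]
      refine Finset.prod_congr rfl fun i _ => ?_
      rw [← Finset.mul_prod_erase Finset.univ _ (Finset.mem_univ i)]
      congr 2
      ring
    rw [e3]
    have hR : (∏ i : Fin (n + 1), (((1 / 8 : ℝ) : ℂ) * cexp (θ i * I) * I)) = ∏ i, (g i * I) := by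
      refine Finset.prod_congr rfl fun i _ => ?_
      rw [hgdef]
      simp only [gam]
      rw [mul_comm (θ i : ℂ) I]
    rw [hR]
    have hk : ∀ j, kr (t + cc c j) (g j) * g j / (2 * Real.pi) =
        (2 / g j * cexp (g j * (Real.log ((t + cc c j) / (2 * Real.pi)) : ℝ))) / (2 * Real.pi) := by
      intro j
      unfold kr
      have := hg0 j
      field_simp
    have e4 : (∏ j, (kr (t + cc c j) (g j) * g j / (2 * Real.pi))) =
        (∏ j, (2 / g j * cexp (g j * (Real.log ((t + cc c j) / (2 * Real.pi)) : ℝ)))) *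
          ((2 * Real.pi : ℂ) ^ (n + 1))⁻¹ := by
      rw [Finset.prod_congr rfl fun j _ => hk j, Finset.prod_div_distrib]
      simp [div_eq_mul_inv]
    rw [e4, Finset.prod_mul_distrib (f := fun i => g i) (g := fun _ => I), Finset.prod_const,
      Finset.card_univ, Fintype.card_fin, Finset.prod_mul_distrib (f := fun j => g j)]
    have hpi : (2 * Real.pi : ℂ) ≠ 0 := by
      have := Real.pi_ne_zero
      exact mul_ne_zero two_ne_zero (by exact_mod_cast this)
    rw [mul_pow (2 * Real.pi : ℂ) I]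
    have hI : (I : ℂ) ^ (n + 1) ≠ 0 := pow_ne_zero _ I_ne_zero
    have hp2 : (2 * Real.pi : ℂ) ^ (n + 1) ≠ 0 := pow_ne_zero _ hpi
    field_simp
  · rw [indicator_of_notMem hθ, mul_zero]
    have : ∃ j, θ j ∉ dom σ η H Kd.C := by
      by_contra hcon
      push Not at hcon
      exact hθ ⟨fun j => (hcon j).1, fun j => (hcon j).2⟩
    obtain ⟨j, hj⟩ := this
    have h0 : wt σ η H (1 / 8) (t + cc c j) Kd.C (θ j) = 0 := by
      unfold wt
      rw [if_neg hj]
    rw [Finset.prod_eq_zero (Finset.mem_univ j) h0, mul_zero]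

end

end Pool.Agent.Y969.GP
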