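import Pool.Agent.Y969.GP.BR1

set_option autoImplicit false

/-! Project GP: bounds for the weights. -/

namespace Pool.Agent.Y969.GP

open Complex Filter Topology MeasureTheory Set

noncomputable section

/-- size of the weights -/
def Ek (σ η H : ℝ) (u : ℝ) : Kd → ℝ
  | Kd.R => u ^ η
  | Kd.C => u ^ η
  | Kd.L => u ^ (-σ)
  | Kd.B => u ^ η * Real.exp (-H ^ 2)
  | Kd.T => u ^ η * Real.exp (-H ^ 2)

lemma norm_pw {u x : ℝ} (hu : 0 < u) (hx : |x| ≤ 1) :
    Real.exp (x * Real.log (u / (2 * Real.pi))) ≤ 7 * u ^ x := by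
  have hpi := Real.pi_pos
  have hpi3 := Real.pi_gt_three
  have h2pi : (1:ℝ) ≤ 2 * Real.pi := by linarith
  have h7 : 2 * Real.pi ≤ 7 := by linarith [Real.pi_lt_d2]
  rw [Real.log_div hu.ne' (by positivity), mul_sub, sub_eq_add_neg, Real.exp_add,
    Real.rpow_def_of_pos hu, mul_comm x (Real.log u), mul_comm (7:ℝ)]
  refine mul_le_mul_of_nonneg_left ?_ (Real.exp_pos _).le
  have hlog : 0 ≤ Real.log (2 * Real.pi) := Real.log_nonneg h2pi
  have h1 : -(x * Real.log (2 * Real.pi)) ≤ Real.log (2 * Real.pi) := by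
    have := neg_le_of_abs_le hx
    nlinarith
  calc Real.exp (-(x * Real.log (2 * Real.pi))) ≤ Real.exp (Real.log (2 * Real.pi)) :=
        Real.exp_le_exp.2 h1
    _ = 2 * Real.pi := Real.exp_log (by positivity)
    _ ≤ 7 := h7

lemma norm_kr {u : ℝ} {s : ℂ} (hu : 0 < u) (hx : |s.re| ≤ 1) {m : ℝ} (hm : 0 < m) (hs : m ≤ ‖s‖) :
    ‖kr u s‖ ≤ 14 / m ^ 2 * u ^ s.re := by
  unfold kr
  rw [norm_div, norm_mul, norm_pow, Complex.norm_exp, Complex.norm_ofNat]
  have e : (s * ((Real.log (u / (2 * Real.pi)) : ℝ) : ℂ)).re = s.re * Real.log (u / (2 * Real.pi)) := by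
    simp
  rw [e]
  have h1 := norm_pw hu hx
  have h2 : 0 < ‖s‖ := hm.trans_le hs
  calc 2 * Real.exp (s.re * Real.log (u / (2 * Real.pi))) / ‖s‖ ^ 2 ≤ 2 * (7 * u ^ s.re) / m ^ 2 := by
        gcongr
    _ = _ := by ring

lemma norm_two_pi : ‖(2 * Real.pi : ℂ)‖ = 2 * Real.pi := by
  rw [norm_mul, Complex.norm_ofNat, Complex.norm_real, Real.norm_of_nonneg Real.pi_pos.le]

lemma norm_exp_sq (s : ℂ) : ‖cexp (s ^ 2)‖ = Real.exp (s.re ^ 2 - s.im ^ 2) := by
  rw [Complex.norm_exp]
  congr 1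
  rw [sq, Complex.mul_re]; ring

lemma wt_le {σ η H r u θ : ℝ} {κ : Kd} (hr : 0 < r) (hrη : r ≤ η) (hrσ : r ≤ σ) (hη : η ≤ 1)
    (hσ : σ ≤ 1) (hH : 1 ≤ H) (hu : 1 ≤ u) :
    ‖wt σ η H r u κ θ‖ ≤ (dom σ η H κ).indicator (fun _ => 42 / r ^ 2 * Ek σ η H u κ) θ := by
  by_cases hθ : θ ∈ dom σ η H κ
  · rw [indicator_of_mem hθ]
    unfold wt
    rw [if_pos hθ]
    have hpi3 := Real.pi_gt_three
    have hu0 : 0 < u := by linarith
    have hr1 : r ≤ 1 := hrη.trans hη
    have hη0 : 0 < η := by linarith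
    have hσ0 : 0 < σ := by linarith
    have h2pi : (1:ℝ) ≤ 2 * Real.pi := by linarith
    have he3 : Real.exp 1 ≤ 3 := by linarith [Real.exp_one_lt_d9]
    cases κ with
    | R =>
      simp only [Ek]
      have e1 : (gam σ η H r Kd.R θ).re = η := by simp [gam]
      have e2 : (gam σ η H r Kd.R θ).im = θ := by simp [gam]
      have hn : η ≤ ‖gam σ η H r Kd.R θ‖ := by
        have := Complex.abs_re_le_norm (gam σ η H r Kd.R θ)
        rw [e1, abs_of_pos hη0] at this
        exact this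
      have h1 := norm_kr (u := u) hu0 (s := gam σ η H r Kd.R θ) (by rw [e1, abs_of_pos hη0]; exact hη) hr
        (hrη.trans hn)
      rw [e1] at h1
      have h2 : ‖cexp (gam σ η H r Kd.R θ ^ 2)‖ ≤ 3 := by
        rw [norm_exp_sq, e1, e2]
        refine le_trans (Real.exp_le_exp.2 ?_) he3
        nlinarith [sq_nonneg θ]
      rw [norm_div, norm_mul, norm_two_pi]
      rw [div_le_iff₀ (by positivity)]
      calc _ ≤ (14 / r ^ 2 * u ^ η) * 3 := by gcongr
        _ = 42 / r ^ 2 * u ^ η * 1 := by ring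
        _ ≤ _ := by gcongr
    | C =>
      simp only [Ek]
      have hn : ‖gam σ η H r Kd.C θ‖ = r := by
        unfold gam
        rw [norm_mul, Complex.norm_exp, Complex.norm_real, Real.norm_of_nonneg hr.le]
        simp
      have hre : |(gam σ η H r Kd.C θ).re| ≤ r := (Complex.abs_re_le_norm _).trans hn.le
      have h1 := norm_kr (u := u) hu0 (s := gam σ η H r Kd.C θ) (by linarith) hr hn.ge
      have h3 : u ^ (gam σ η H r Kd.C θ).re ≤ u ^ η :=
        Real.rpow_le_rpow_of_exponent_le hu ((le_abs_self _).trans (hre.trans hrη))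
      rw [norm_div, norm_mul, norm_two_pi, hn, div_le_iff₀ (by positivity)]
      calc _ ≤ (14 / r ^ 2 * u ^ η) * 1 := by
            refine mul_le_mul (h1.trans (by gcongr)) hr1 hr.le (by positivity)
        _ ≤ 42 / r ^ 2 * u ^ η * 1 := by
            rw [mul_one, mul_one]
            gcongr
            norm_num
        _ ≤ _ := by gcongr
    | L =>
      simp only [Ek]
      have e1 : (gam σ η H r Kd.L θ).re = -σ := by simp [gam]
      have e2 : (gam σ η H r Kd.L θ).im = θ := by simp [gam]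
      have hn : σ ≤ ‖gam σ η H r Kd.L θ‖ := by
        have := Complex.abs_re_le_norm (gam σ η H r Kd.L θ)
        rw [e1, abs_neg, abs_of_pos hσ0] at this
        exact this
      have h1 := norm_kr (u := u) hu0 (s := gam σ η H r Kd.L θ)
        (by rw [e1, abs_neg, abs_of_pos hσ0]; exact hσ) hr (hrσ.trans hn)
      rw [e1] at h1
      have h2 : ‖cexp (gam σ η H r Kd.L θ ^ 2)‖ ≤ 3 := by
        rw [norm_exp_sq, e1, e2]
        refine le_trans (Real.exp_le_exp.2 ?_) he3
        nlinarith [sq_nonneg θ]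
      rw [norm_div, norm_mul, norm_two_pi]
      rw [div_le_iff₀ (by positivity)]
      calc _ ≤ (14 / r ^ 2 * u ^ (-σ)) * 3 := by gcongr
        _ = 42 / r ^ 2 * u ^ (-σ) * 1 := by ring
        _ ≤ _ := by gcongr
    | B =>
      simp only [Ek]
      have hθ' : -σ ≤ θ ∧ θ ≤ η := hθ
      have e1 : (gam σ η H r Kd.B θ).re = θ := by simp [gam]
      have e2 : (gam σ η H r Kd.B θ).im = -H := by simp [gam]
      have hab : |θ| ≤ 1 := abs_le.2 ⟨by linarith [hθ'.1], by linarith [hθ'.2]⟩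
      have hn : r ≤ ‖gam σ η H r Kd.B θ‖ := by
        have := Complex.abs_im_le_norm (gam σ η H r Kd.B θ)
        rw [e2, abs_neg, abs_of_pos (by linarith : 0 < H)] at this
        linarith
      have h1 := norm_kr (u := u) hu0 (s := gam σ η H r Kd.B θ) (by rw [e1]; exact hab) hr hn
      rw [e1] at h1
      have h3 : u ^ θ ≤ u ^ η := Real.rpow_le_rpow_of_exponent_le hu hθ'.2
      have h2 : ‖cexp (gam σ η H r Kd.B θ ^ 2)‖ ≤ 3 * Real.exp (-H ^ 2) := by
        rw [norm_exp_sq, e1, e2, sub_eq_add_neg, Real.exp_add, neg_sq]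
        refine mul_le_mul_of_nonneg_right ?_ (Real.exp_pos _).le
        refine le_trans (Real.exp_le_exp.2 ?_) he3
        have := abs_le.1 hab
        nlinarith
      rw [norm_neg, norm_div, norm_mul, norm_mul (2 * Real.pi : ℂ) I, norm_two_pi, Complex.norm_I,
        mul_one, div_le_iff₀ (by positivity)]
      calc _ ≤ (14 / r ^ 2 * u ^ η) * (3 * Real.exp (-H ^ 2)) :=
            mul_le_mul (h1.trans (by gcongr)) h2 (norm_nonneg _) (by positivity)
        _ = 42 / r ^ 2 * (u ^ η * Real.exp (-H ^ 2)) * 1 := by ring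
        _ ≤ _ := by gcongr
    | T =>
      simp only [Ek]
      have hθ' : -σ ≤ θ ∧ θ ≤ η := hθ
      have e1 : (gam σ η H r Kd.T θ).re = θ := by simp [gam]
      have e2 : (gam σ η H r Kd.T θ).im = H := by simp [gam]
      have hab : |θ| ≤ 1 := abs_le.2 ⟨by linarith [hθ'.1], by linarith [hθ'.2]⟩
      have hn : r ≤ ‖gam σ η H r Kd.T θ‖ := by
        have := Complex.abs_im_le_norm (gam σ η H r Kd.T θ)
        rw [e2, abs_of_pos (by linarith : 0 < H)] at this
        linarith
      have h1 := norm_kr (u := u) hu0 (s := gam σ η H r Kd.T θ) (by rw [e1]; exact hab) hr hn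
      rw [e1] at h1
      have h3 : u ^ θ ≤ u ^ η := Real.rpow_le_rpow_of_exponent_le hu hθ'.2
      have h2 : ‖cexp (gam σ η H r Kd.T θ ^ 2)‖ ≤ 3 * Real.exp (-H ^ 2) := by
        rw [norm_exp_sq, e1, e2, sub_eq_add_neg, Real.exp_add]
        refine mul_le_mul_of_nonneg_right ?_ (Real.exp_pos _).le
        refine le_trans (Real.exp_le_exp.2 ?_) he3
        have := abs_le.1 hab
        nlinarith
      rw [norm_div, norm_mul, norm_mul (2 * Real.pi : ℂ) I, norm_two_pi, Complex.norm_I,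
        mul_one, div_le_iff₀ (by positivity)]
      calc _ ≤ (14 / r ^ 2 * u ^ η) * (3 * Real.exp (-H ^ 2)) :=
            mul_le_mul (h1.trans (by gcongr)) h2 (norm_nonneg _) (by positivity)
        _ = 42 / r ^ 2 * (u ^ η * Real.exp (-H ^ 2)) * 1 := by ring
        _ ≤ _ := by gcongr
  · rw [indicator_of_notMem hθ]
    unfold wt
    rw [if_neg hθ, norm_zero]

/-- the weights on the circle near `u = 0` -/
lemma wt_le_small {σ η H r u θ : ℝ} (hr : 0 < r) (hr1 : r ≤ 1) (hu0 : 0 < u) (hu : u ≤ 1) :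
    ‖wt σ η H r u Kd.C θ‖ ≤ (dom σ η H Kd.C).indicator (fun _ => 42 / r ^ 2 * u ^ (-r)) θ := by
  by_cases hθ : θ ∈ dom σ η H Kd.C
  · rw [indicator_of_mem hθ]
    unfold wt
    rw [if_pos hθ]
    have hpi3 := Real.pi_gt_three
    have h2pi : (1:ℝ) ≤ 2 * Real.pi := by linarith
    have hn : ‖gam σ η H r Kd.C θ‖ = r := by
      unfold gam
      rw [norm_mul, Complex.norm_exp, Complex.norm_real, Real.norm_of_nonneg hr.le]
      simp
    have hre : |(gam σ η H r Kd.C θ).re| ≤ r := (Complex.abs_re_le_norm _).trans hn.le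
    have h1 := norm_kr (u := u) hu0 (s := gam σ η H r Kd.C θ) (by linarith) hr hn.ge
    have h3 : u ^ (gam σ η H r Kd.C θ).re ≤ u ^ (-r) :=
      Real.rpow_le_rpow_of_exponent_ge hu0 hu (neg_le_of_abs_le hre)
    simp only
    rw [norm_div, norm_mul, norm_two_pi, hn, div_le_iff₀ (by positivity)]
    calc _ ≤ (14 / r ^ 2 * u ^ (-r)) * 1 := by
          refine mul_le_mul (h1.trans (by gcongr)) hr1 hr.le (by positivity)
      _ ≤ 42 / r ^ 2 * u ^ (-r) * 1 := by
          rw [mul_one, mul_one]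
          gcongr
          norm_num
      _ ≤ _ := by gcongr
  · rw [indicator_of_notMem hθ]
    unfold wt
    rw [if_neg hθ, norm_zero]

end

end Pool.Agent.Y969.GP
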