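import Pool.Agent.Y969.GP.BR2

set_option autoImplicit false

/-! Project GP: integrals over products of paths and over the shifts. -/

namespace Pool.Agent.Y969.GP

open Complex Filter Topology MeasureTheory Set

noncomputable section

/-- the product of paths -/
def pth {K : ℕ} (σ η H r : ℝ) (k : Fin K → Kd) (θ : Fin K → ℝ) : Fin K → ℂ :=
  fun i => gam σ η H r (k i) (θ i)

/-- the product of the parameter intervals -/
def Dm {K : ℕ} (σ η H : ℝ) (k : Fin K → Kd) : Set (Fin K → ℝ) := univ.pi fun i => dom σ η H (k i)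

lemma gam_cont (σ η H r : ℝ) (κ : Kd) : Continuous (gam σ η H r κ) := by
  cases κ <;> unfold gam <;> fun_prop

lemma pth_cont {K : ℕ} (σ η H r : ℝ) (k : Fin K → Kd) : Continuous (pth σ η H r k) := by
  refine continuous_pi fun i => ?_
  exact (gam_cont σ η H r (k i)).comp (continuous_apply i)

lemma dom_compact (σ η H : ℝ) (κ : Kd) : IsCompact (dom σ η H κ) := by
  cases κ <;> exact isCompact_Icc

lemma Dm_compact {K : ℕ} (σ η H : ℝ) (k : Fin K → Kd) : IsCompact (Dm σ η H k) :=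
  isCompact_univ_pi fun i => dom_compact σ η H (k i)

lemma Gd_compact (n : ℕ) (a T : ℝ) : IsCompact (Gd n a T) := by
  have h : Gd n a T = Icc (fun _ => a) (fun _ => T) ∩
      ⋂ i : Fin n, ⋂ j : Fin n, {c : Fin n → ℝ | i ≠ j → a ≤ |c i - c j|} := by
    ext c
    simp only [Gd, mem_ofPred_eq, mem_inter_iff, mem_iInter, mem_Icc, Pi.le_def]
    constructor
    · rintro ⟨h1, h2⟩
      exact ⟨⟨fun j => (h1 j).1, fun j => (h1 j).2⟩, h2⟩
    · rintro ⟨⟨h1, h2⟩, h3⟩
      exact ⟨fun j => ⟨h1 j, h2 j⟩, h3⟩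
  rw [h]
  refine isCompact_Icc.inter_right ?_
  refine isClosed_iInter fun i => isClosed_iInter fun j => ?_
  by_cases hij : i = j
  · simp [hij]
  · simp only [ne_eq, hij, not_false_eq_true, true_implies]
    exact isClosed_le continuous_const (by fun_prop)

lemma pth_Bx {K : ℕ} {σ η H r : ℝ} (hr : 0 < r) (hrη : r ≤ η) (hrσ : r ≤ σ) (hrH : r ≤ H)
    (j : Fin K) {k : Fin K → Kd} (hk : ∀ i, i ≠ j → k i = Kd.C ∨ k i = Kd.R) {θ : Fin K → ℝ}
    (hθ : θ ∈ Dm σ η H k) : pth σ η H r k θ ∈ Bx j σ η H := by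
  have hC : ∀ x : ℝ, ‖gam σ η H r Kd.C x‖ = r := by
    intro x
    unfold gam
    rw [norm_mul, Complex.norm_exp, Complex.norm_real, Real.norm_of_nonneg hr.le]
    simp
  have hσ : 0 < σ := by linarith
  have hη : 0 < η := by linarith
  have hH : 0 < H := by linarith
  have key : ∀ i, |(gam σ η H r (k i) (θ i)).im| ≤ H ∧ -σ ≤ (gam σ η H r (k i) (θ i)).re ∧
      (gam σ η H r (k i) (θ i)).re ≤ η := by
    intro i
    have hi : θ i ∈ dom σ η H (k i) := hθ i (mem_univ i)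
    cases hki : k i with
    | R =>
      rw [hki] at hi
      have hi' : -H ≤ θ i ∧ θ i ≤ H := hi
      refine ⟨?_, ?_, ?_⟩ <;> simp [gam]
      · exact abs_le.2 hi'
      · linarith
    | C =>
      have h1 := Complex.abs_im_le_norm (gam σ η H r Kd.C (θ i))
      have h2 := Complex.abs_re_le_norm (gam σ η H r Kd.C (θ i))
      rw [hC] at h1 h2
      have h3 := abs_le.1 h2
      exact ⟨h1.trans hrH, by linarith [h3.1], by linarith [h3.2]⟩
    | L =>
      rw [hki] at hi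
      have hi' : -H ≤ θ i ∧ θ i ≤ H := hi
      refine ⟨?_, ?_, ?_⟩ <;> simp [gam]
      · exact abs_le.2 hi'
      · linarith
    | B =>
      rw [hki] at hi
      have hi' : -σ ≤ θ i ∧ θ i ≤ η := hi
      refine ⟨?_, ?_, ?_⟩ <;> simp [gam]
      · exact (abs_of_pos hH).le
      · exact hi'.1
      · exact hi'.2
    | T =>
      rw [hki] at hi
      have hi' : -σ ≤ θ i ∧ θ i ≤ η := hi
      refine ⟨?_, ?_, ?_⟩ <;> simp [gam]
      · exact (abs_of_pos hH).le
      · exact hi'.1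
      · exact hi'.2
  refine ⟨fun i => (key i).1, fun i hi => ?_, (key j).2.1, (key j).2.2⟩
  rcases hk i hi with h | h
  · have h2 := Complex.abs_re_le_norm (gam σ η H r Kd.C (θ i))
    rw [hC] at h2
    show |(gam σ η H r (k i) (θ i)).re| ≤ η
    rw [h]
    exact h2.trans hrη
  · show |(gam σ η H r (k i) (θ i)).re| ≤ η
    rw [h]
    simp [gam, abs_of_pos hη]

lemma mix_kinds {K : ℕ} (j : Fin K) (κ : Kd) : ∀ i, i ≠ j → mix j κ i = Kd.C ∨ mix j κ i = Kd.R := by
  intro i hi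
  unfold mix
  by_cases h : i < j
  · left; rw [if_pos h]
  · right; rw [if_neg h, if_neg hi]

lemma mix_self {K : ℕ} (j : Fin K) (κ : Kd) : mix j κ j = κ := by
  unfold mix
  rw [if_neg (lt_irrefl j), if_pos rfl]

/-- the integral of `‖P c‖` over a product of paths -/
def GG {n : ℕ} (P : (Fin n → ℝ) → (Fin (n + 1) → ℂ) → ℂ) (σ η H r : ℝ) (k : Fin (n + 1) → Kd)
    (c : Fin n → ℝ) : ℝ :=
  ∫ θ in Dm σ η H k, ‖P c (pth σ η H r k θ)‖

lemma dom_vol {σ η H : ℝ} (hσ : 0 ≤ σ) (hη : 0 ≤ η) (hση : σ + η ≤ 1) (hH : 1 ≤ H) (κ : Kd) :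
    (volume (dom σ η H κ)).toReal ≤ 9 * H := by
  have hpi := Real.pi_lt_d2
  have hpi0 := Real.pi_pos
  cases κ <;> simp only [dom, Real.volume_Icc] <;>
    rw [ENNReal.toReal_ofReal (by linarith)] <;> linarith

lemma Dm_vol {K : ℕ} {σ η H : ℝ} (hσ : 0 ≤ σ) (hη : 0 ≤ η) (hση : σ + η ≤ 1) (hH : 1 ≤ H)
    (k : Fin K → Kd) : (volume (Dm σ η H k)).toReal ≤ (9 * H) ^ K := by
  unfold Dm
  rw [volume_pi_pi, ENNReal.toReal_prod]
  calc _ ≤ ∏ _i : Fin K, (9 * H) :=
        Finset.prod_le_prod (fun _ _ => ENNReal.toReal_nonneg) fun i _ => dom_vol hσ hη hση hH (k i)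
    _ = _ := by simp

section
variable {n : ℕ} {P : (Fin n → ℝ) → (Fin (n + 1) → ℂ) → ℂ} {σ η H r a T : ℝ} {k : Fin (n + 1) → Kd} {j : Fin (n + 1)}

lemma P_int (hr : 0 < r) (hrη : r ≤ η) (hrσ : r ≤ σ) (hrH : r ≤ H)
    (hk : ∀ i, i ≠ j → k i = Kd.C ∨ k i = Kd.R)
    (hc : ContinuousOn (fun p : (Fin n → ℝ) × (Fin (n + 1) → ℂ) => P p.1 p.2)
      (Gd n a T ×ˢ Bx j σ η H)) :
    Integrable (fun p : (Fin n → ℝ) × (Fin (n + 1) → ℝ) => ‖P p.1 (pth σ η H r k p.2)‖)
      ((volume.restrict (Gd n a T)).prod (volume.restrict (Dm σ η H k))) := by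
  rw [Measure.prod_restrict]
  have hK : IsCompact (Gd n a T ×ˢ Dm σ η H k) := (Gd_compact n a T).prod (Dm_compact σ η H k)
  refine ContinuousOn.integrableOn_compact hK ?_
  refine ContinuousOn.norm ?_
  have hm : ContinuousOn (fun p : (Fin n → ℝ) × (Fin (n + 1) → ℝ) => (p.1, pth σ η H r k p.2))
      (Gd n a T ×ˢ Dm σ η H k) :=
    (continuous_fst.prodMk ((pth_cont σ η H r k).comp continuous_snd)).continuousOn
  exact hc.comp hm fun p hp => ⟨hp.1, pth_Bx hr hrη hrσ hrH j hk hp.2⟩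

lemma GG_int (hr : 0 < r) (hrη : r ≤ η) (hrσ : r ≤ σ) (hrH : r ≤ H)
    (hk : ∀ i, i ≠ j → k i = Kd.C ∨ k i = Kd.R)
    (hc : ContinuousOn (fun p : (Fin n → ℝ) × (Fin (n + 1) → ℂ) => P p.1 p.2)
      (Gd n a T ×ˢ Bx j σ η H)) :
    IntegrableOn (fun c => GG P σ η H r k c) (Gd n a T) := by
  have h := (P_int hr hrη hrσ hrH hk hc).integral_prod_left
  exact h

lemma GG_le (hr : 0 < r) (hrη : r ≤ η) (hrσ : r ≤ σ) (hrH : r ≤ H) (hση : σ + η ≤ 1) (hH : 1 ≤ H)
    (hk : ∀ i, i ≠ j → k i = Kd.C ∨ k i = Kd.R)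
    (hc : ContinuousOn (fun p : (Fin n → ℝ) × (Fin (n + 1) → ℂ) => P p.1 p.2)
      (Gd n a T ×ˢ Bx j σ η H)) {B : ℝ} (hB : 0 ≤ B)
    (hm : ∀ s ∈ Bx j σ η H, ∫ c in Gd n a T, ‖P c s‖ ≤ B) :
    ∫ c in Gd n a T, GG P σ η H r k c ≤ (9 * H) ^ (n + 1) * B := by
  have hσ : 0 < σ := by linarith
  have hη : 0 < η := by linarith
  have h := P_int hr hrη hrσ hrH hk hc
  have hsw := integral_integral_swap (f := fun (c : Fin n → ℝ) (θ : Fin (n + 1) → ℝ) =>
    ‖P c (pth σ η H r k θ)‖) h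
  unfold GG
  rw [hsw]
  have hfin : volume (Dm σ η H k) ≠ ⊤ := (Dm_compact σ η H k).measure_lt_top.ne
  calc ∫ θ in Dm σ η H k, ∫ c in Gd n a T, ‖P c (pth σ η H r k θ)‖
      ≤ ∫ _θ in Dm σ η H k, B := by
        refine integral_mono_of_nonneg (Eventually.of_forall fun θ =>
          integral_nonneg fun c => norm_nonneg _) (integrableOn_const hfin) ?_
        refine (ae_restrict_iff' (Dm_compact σ η H k).measurableSet).2 (Eventually.of_forall fun θ hθ => ?_)
        exact hm _ (pth_Bx hr hrη hrσ hrH j hk hθ)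
    _ = (volume (Dm σ η H k)).toReal * B := by
        rw [setIntegral_const, smul_eq_mul]; rfl
    _ ≤ _ := by
        have := Dm_vol hσ.le hη.le hση hH k
        gcongr

/-- pointwise bound of the absolute integrals -/
lemma hybn_le (hr : 0 < r) (hrη : r ≤ η) (hrσ : r ≤ σ) (hrH : r ≤ H) (hη1 : η ≤ 1) (hσ1 : σ ≤ 1)
    (hH : 1 ≤ H) (hk : ∀ i, i ≠ j → k i = Kd.C ∨ k i = Kd.R)
    (hc : ContinuousOn (fun p : (Fin n → ℝ) × (Fin (n + 1) → ℂ) => P p.1 p.2)
      (Gd n a T ×ˢ Bx j σ η H)) {c : Fin n → ℝ} (hcG : c ∈ Gd n a T) {u : Fin (n + 1) → ℝ}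
    (hu : ∀ i, 1 ≤ u i) :
    hybn σ η H r u k (P c) ≤ (42 / r ^ 2) ^ (n + 1) * (∏ i, Ek σ η H (u i) (k i)) *
      GG P σ η H r k c := by
  unfold hybn GG
  have hmeas := (Dm_compact σ η H k).measurableSet
  rw [← integral_indicator hmeas, ← integral_const_mul]
  have hcont : ContinuousOn (fun θ => ‖P c (pth σ η H r k θ)‖) (Dm σ η H k) := by
    refine ContinuousOn.norm ?_
    have hm : ContinuousOn (fun θ : Fin (n + 1) → ℝ => (c, pth σ η H r k θ)) (Dm σ η H k) :=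
      (continuous_const.prodMk (pth_cont σ η H r k)).continuousOn
    exact hc.comp hm fun θ hθ => ⟨hcG, pth_Bx hr hrη hrσ hrH j hk hθ⟩
  have hint : Integrable ((Dm σ η H k).indicator fun θ => ‖P c (pth σ η H r k θ)‖) :=
    (integrable_indicator_iff hmeas).2 (hcont.integrableOn_compact (Dm_compact σ η H k))
  refine integral_mono_of_nonneg (Eventually.of_forall fun θ => by positivity)
    (hint.const_mul _) (Eventually.of_forall fun θ => ?_)
  simp only
  have hE : ∀ i, 0 ≤ Ek σ η H (u i) (k i) := by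
    intro i
    have hui : 0 < u i := by linarith [hu i]
    cases k i <;> simp only [Ek] <;> positivity
  by_cases hθ : θ ∈ Dm σ η H k
  · rw [indicator_of_mem hθ, mul_comm]
    refine mul_le_mul_of_nonneg_right ?_ (norm_nonneg _)
    calc ∏ i, ‖wt σ η H r (u i) (k i) (θ i)‖ ≤ ∏ i, (42 / r ^ 2 * Ek σ η H (u i) (k i)) := by
          refine Finset.prod_le_prod (fun _ _ => norm_nonneg _) fun i _ => ?_
          have := wt_le (κ := k i) (θ := θ i) hr hrη hrσ hη1 hσ1 hH (hu i)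
          rwa [indicator_of_mem (hθ i (mem_univ i))] at this
      _ = _ := by rw [Finset.prod_mul_distrib, Finset.prod_const, Finset.card_univ, Fintype.card_fin]
  · rw [indicator_of_notMem hθ, mul_zero]
    have : ∃ i, θ i ∉ dom σ η H (k i) := by
      by_contra hcon
      push Not at hcon
      exact hθ fun i _ => hcon i
    obtain ⟨i, hi⟩ := this
    have h0 : wt σ η H r (u i) (k i) (θ i) = 0 := by
      unfold wt
      rw [if_neg hi]
    rw [Finset.prod_eq_zero (Finset.mem_univ i) (by rw [h0, norm_zero]), mul_zero]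

end

end

end Pool.Agent.Y969.GP
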