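import Pool.Agent.Y969.GP.BR3

set_option autoImplicit false

/-! Project GP: the diagonal part against the main term, pointwise. -/

namespace Pool.Agent.Y969.GP

open Complex Filter Topology MeasureTheory Set

noncomputable section

attribute [local irreducible] Ps RR MX

/-- the sum of the integrals over the mixed paths -/
def WW (n : ℕ) (σ η H r : ℝ) (c : Fin n → ℝ) : ℝ :=
  ∑ j : Fin (n + 1), (GG Ps σ η H r (mix j Kd.L) c + GG Ps σ η H r (mix j Kd.B) c +
    GG Ps σ η H r (mix j Kd.T) c)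

lemma GG_nonneg {n : ℕ} {P : (Fin n → ℝ) → (Fin (n + 1) → ℂ) → ℂ} {σ η H r : ℝ}
    {k : Fin (n + 1) → Kd} {c : Fin n → ℝ} : 0 ≤ GG P σ η H r k c :=
  integral_nonneg fun _ => norm_nonneg _

lemma cc_zero {n : ℕ} (c : Fin n → ℝ) : cc c 0 = 0 := by unfold cc; simp
lemma cc_succ {n : ℕ} (c : Fin n → ℝ) (j : Fin n) : cc c j.succ = c j := by unfold cc; simp

lemma cc_bd {n : ℕ} {a T : ℝ} (ha : 0 ≤ a) (hT : 0 ≤ T) {c : Fin n → ℝ} (hc : c ∈ Gd n a T)
    (j : Fin (n + 1)) : 0 ≤ cc c j ∧ cc c j ≤ T := by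
  refine Fin.cases ?_ (fun i => ?_) j
  · rw [cc_zero]; exact ⟨le_rfl, hT⟩
  · rw [cc_succ]; exact ⟨ha.trans (hc.1 i).1, (hc.1 i).2⟩

/-- the weights of a mixed product -/
lemma prod_Ek {n : ℕ} {σ η T a t : ℝ} (hη : 0 ≤ η) (hσ : 0 ≤ σ) (hT : Real.exp 1 ≤ T)
    (ha : 1 ≤ a) (ht : 1 ≤ t) (htT : t ≤ T) {c : Fin n → ℝ} (hc : c ∈ Gd n a T) (j : Fin (n + 1))
    {κ : Kd} (hκ : κ = Kd.L ∨ κ = Kd.B ∨ κ = Kd.T) :
    ∏ i, Ek σ η (Real.log T) (t + cc c i) (mix j κ i) ≤
      ((2 * T) ^ η) ^ (n + 1) * (t ^ (-σ) + a ^ (-σ) + T⁻¹) := by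
  have hT0 : 0 < T := (Real.exp_pos 1).trans_le hT
  have hu : ∀ i, 1 ≤ t + cc c i ∧ t + cc c i ≤ 2 * T := fun i => by
    have := cc_bd (by linarith) hT0.le hc i
    constructor <;> linarith [this.1, this.2]
  have hbase : 1 ≤ (2 * T) ^ η := Real.one_le_rpow (by
    have := Real.add_one_le_exp 1
    linarith) hη
  have hpow : ∀ i, (t + cc c i) ^ η ≤ (2 * T) ^ η := fun i =>
    Real.rpow_le_rpow (by linarith [(hu i).1]) (hu i).2 hη
  have hE0 : ∀ i, 0 ≤ Ek σ η (Real.log T) (t + cc c i) (mix j κ i) := by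
    intro i
    have hui : 0 < t + cc c i := by linarith [(hu i).1]
    cases mix j κ i <;> simp only [Ek] <;> positivity
  have hother : ∀ i, i ≠ j → Ek σ η (Real.log T) (t + cc c i) (mix j κ i) ≤ (2 * T) ^ η := by
    intro i hi
    rcases mix_kinds j κ i hi with h | h <;> rw [h] <;> exact hpow i
  have hH : 1 ≤ Real.log T := by rwa [Real.le_log_iff_exp_le hT0]
  have hexp : Real.exp (-(Real.log T) ^ 2) ≤ T⁻¹ := by
    rw [← Real.exp_log hT0, ← Real.exp_neg, Real.exp_log hT0]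
    refine Real.exp_le_exp.2 ?_
    nlinarith
  have huσ : (t + cc c j) ^ (-σ) ≤ t ^ (-σ) + a ^ (-σ) := by
    have h1 : 0 ≤ t ^ (-σ) := by positivity
    have h2 : 0 ≤ a ^ (-σ) := by positivity
    by_cases hj : j = 0
    · subst hj
      rw [cc_zero, add_zero]
      linarith
    · obtain ⟨i, rfl⟩ := Fin.exists_succ_eq.2 hj
      rw [cc_succ]
      have h3 : a ≤ t + c i := by linarith [(hc.1 i).1]
      have h4 : (t + c i) ^ (-σ) ≤ a ^ (-σ) :=
        Real.rpow_le_rpow_of_nonpos (by linarith) h3 (by linarith)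
      linarith
  have ht0 : 0 ≤ t ^ (-σ) := by positivity
  have ha0 : 0 ≤ a ^ (-σ) := by positivity
  have hTi : 0 ≤ T⁻¹ := by positivity
  have hself : Ek σ η (Real.log T) (t + cc c j) (mix j κ j) ≤
      (2 * T) ^ η * (t ^ (-σ) + a ^ (-σ) + T⁻¹) := by
    rw [mix_self]
    rcases hκ with h | h | h <;> rw [h] <;> simp only [Ek]
    · calc (t + cc c j) ^ (-σ) ≤ 1 * (t ^ (-σ) + a ^ (-σ) + T⁻¹) := by linarith
        _ ≤ _ := by gcongr
    · calc (t + cc c j) ^ η * Real.exp (-(Real.log T) ^ 2) ≤ (2 * T) ^ η * T⁻¹ :=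
            mul_le_mul (hpow j) hexp (Real.exp_pos _).le (by positivity)
        _ ≤ _ := by gcongr; linarith
    · calc (t + cc c j) ^ η * Real.exp (-(Real.log T) ^ 2) ≤ (2 * T) ^ η * T⁻¹ :=
            mul_le_mul (hpow j) hexp (Real.exp_pos _).le (by positivity)
        _ ≤ _ := by gcongr; linarith
  rw [← Finset.mul_prod_erase Finset.univ _ (Finset.mem_univ j)]
  calc _ ≤ ((2 * T) ^ η * (t ^ (-σ) + a ^ (-σ) + T⁻¹)) * ∏ _i ∈ Finset.univ.erase j, (2 * T) ^ η := by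
        refine mul_le_mul hself ?_ (Finset.prod_nonneg fun i _ => hE0 i) (by positivity)
        exact Finset.prod_le_prod (fun i _ => hE0 i) fun i hi => hother i (Finset.ne_of_mem_erase hi)
    _ = _ := by
        rw [Finset.prod_const, Finset.card_erase_of_mem (Finset.mem_univ j), Finset.card_univ,
          Fintype.card_fin, Nat.add_sub_cancel, pow_succ]
        ring

/-- parameters -/
structure Par (n : ℕ) (σ η r a T : ℝ) : Prop where
  r0 : 0 < r
  rη : r < η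
  rσ : r < σ
  ησ : η < σ
  r8 : r ≤ 1 / 8
  ση : σ + η < 1 / 2
  η16 : η < 1 / 16
  aT : a ≤ T
  hT : Real.exp 1 ≤ T
  ha : 2 * Real.log T + 2 ≤ a

lemma Par.H1 {n : ℕ} {σ η r a T : ℝ} (h : Par n σ η r a T) : 1 ≤ Real.log T := by
  rw [Real.le_log_iff_exp_le ((Real.exp_pos 1).trans_le h.hT)]; exact h.hT

lemma Par.cont {n : ℕ} {σ η r a T : ℝ} (h : Par n σ η r a T) (hHOL : S_HOL) (j : Fin (n + 1)) :
    ContinuousOn (fun p : (Fin n → ℝ) × (Fin (n + 1) → ℂ) => Ps p.1 p.2)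
      (Gd n a T ×ˢ Bx j σ η (Real.log T)) := by
  have := h.H1
  exact (hHOL n σ η (Real.log T) a T (h.r0.trans h.rη) h.ησ h.ση h.η16 (by linarith) h.ha h.aT).2 j

/-- on the circles -/
lemma RR_hyb {n : ℕ} {σ η r a T : ℝ} (h : Par n σ η r a T) (hTEL2 : S_TEL2) (hHOL2 : S_HOL2)
    {c : Fin n → ℝ} (hc : c ∈ Gd n a T) {t : ℝ} (ht : 0 < t) :
    RR c t = hyb σ η (Real.log T) r (fun j => t + cc c j) (fun _ => Kd.C) (Ps c) := by
  have h1 := h.H1
  have ha1 : 1 ≤ a := by linarith [h.ha]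
  obtain ⟨g1, g2⟩ := hHOL2 n a T ha1 h.aT
  rw [RR_eq σ η (Real.log T) c t]
  symm
  refine hTEL2 (n + 1) σ η (Real.log T) r (1 / 8) (fun j => t + cc c j) (Ps c) h.r0 h.r8 ?_ ?_ ?_
  · intro j
    have := (cc_bd (by linarith) (by linarith [h.aT]) hc j).1
    linarith
  · exact fun j s hs => g1 c hc j s hs
  · have hm : ContinuousOn (fun s : Fin (n + 1) → ℂ => (c, s)) {s | ∀ i, ‖s i‖ ≤ 1 / 8} :=
      (continuous_const.prodMk continuous_id).continuousOn
    exact g2.comp hm fun s hs => ⟨hc, hs⟩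

/-- the pointwise bound -/
lemma point_bd {n : ℕ} {σ η r a T : ℝ} (h : Par n σ η r a T) (hTEL : S_TEL) (hTEL2 : S_TEL2)
    (hHOL : S_HOL) (hHOL2 : S_HOL2) {X : ℕ} {c : Fin n → ℝ} (hc : c ∈ Gd n a T) {t : ℝ} (ht : 1 ≤ t)
    (htT : t ≤ T)
    (hM : ‖MX X c t - hyb σ η (Real.log T) r (fun j => t + cc c j) (fun _ => Kd.R) (Ps c)‖ ≤ T⁻¹) :
    ‖MX X c t - RR c t‖ ≤ T⁻¹ + (42 / r ^ 2) ^ (n + 1) * ((2 * T) ^ η) ^ (n + 1) *
      (t ^ (-σ) + a ^ (-σ) + T⁻¹) * WW n σ η (Real.log T) r c := by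
  have h1 := h.H1
  have hT0 : 0 < T := (Real.exp_pos 1).trans_le h.hT
  have ha1 : 1 ≤ a := by linarith [h.ha]
  have hη0 : 0 < η := h.r0.trans h.rη
  have hσ0 : 0 < σ := h.r0.trans h.rσ
  have hσ1 : σ ≤ 1 := by linarith [h.ση]
  have hη1 : η ≤ 1 := by linarith [h.η16]
  have hu : ∀ i, 1 ≤ t + cc c i := fun i => by
    have := (cc_bd (by linarith) hT0.le hc i).1
    linarith
  have hH := hHOL n σ η (Real.log T) a T hη0 h.ησ h.ση h.η16 (by linarith) h.ha h.aT
  have htel := hTEL (n + 1) σ η (Real.log T) r (fun j => t + cc c j) (Ps c) h.r0 h.rσ h.rη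
    (by linarith [h.r8]) (fun j => by linarith [hu j]) (fun j s hs => hH.1 c hc j s hs)
    (fun j => by
      have hm : ContinuousOn (fun s : Fin (n + 1) → ℂ => (c, s)) (Bx j σ η (Real.log T)) :=
        (continuous_const.prodMk continuous_id).continuousOn
      exact (hH.2 j).comp hm fun s hs => ⟨hc, hs⟩)
  rw [RR_hyb h hTEL2 hHOL2 hc (by linarith)]
  set A := hyb σ η (Real.log T) r (fun j => t + cc c j) (fun _ => Kd.R) (Ps c)
  set B := hyb σ η (Real.log T) r (fun j => t + cc c j) (fun _ => Kd.C) (Ps c)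
  have hone : ∀ (j : Fin (n + 1)) (κ : Kd), (κ = Kd.L ∨ κ = Kd.B ∨ κ = Kd.T) →
      hybn σ η (Real.log T) r (fun j => t + cc c j) (mix j κ) (Ps c) ≤
        (42 / r ^ 2) ^ (n + 1) * ((2 * T) ^ η) ^ (n + 1) * (t ^ (-σ) + a ^ (-σ) + T⁻¹) *
          GG Ps σ η (Real.log T) r (mix j κ) c := by
    intro j κ hκ
    have k1 := hybn_le (P := Ps) (j := j) (k := mix j κ) h.r0 h.rη.le h.rσ.le
      (by linarith [h.r8]) hη1 hσ1 h1 (mix_kinds j κ) (hH.2 j) hc (u := fun j => t + cc c j) hu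
    have k2 := prod_Ek hη0.le hσ0.le h.hT ha1 ht htT hc j hκ
    have k3 : 0 ≤ GG Ps σ η (Real.log T) r (mix j κ) c := GG_nonneg
    refine k1.trans ?_
    have hr := h.r0
    calc _ ≤ (42 / r ^ 2) ^ (n + 1) * (((2 * T) ^ η) ^ (n + 1) * (t ^ (-σ) + a ^ (-σ) + T⁻¹)) *
          GG Ps σ η (Real.log T) r (mix j κ) c := by gcongr
      _ = _ := by ring
  calc ‖MX X c t - B‖ = ‖(MX X c t - A) + (A - B)‖ := by congr 1; ring
    _ ≤ ‖MX X c t - A‖ + ‖A - B‖ := norm_add_le _ _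
    _ ≤ T⁻¹ + ∑ j, (hybn σ η (Real.log T) r (fun j => t + cc c j) (mix j Kd.L) (Ps c) +
          hybn σ η (Real.log T) r (fun j => t + cc c j) (mix j Kd.B) (Ps c) +
          hybn σ η (Real.log T) r (fun j => t + cc c j) (mix j Kd.T) (Ps c)) := add_le_add hM htel
    _ ≤ _ := by
        unfold WW
        rw [Finset.mul_sum]
        refine add_le_add le_rfl (Finset.sum_le_sum fun j _ => ?_)
        have e1 := hone j Kd.L (Or.inl rfl)
        have e2 := hone j Kd.B (Or.inr (Or.inl rfl))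
        have e3 := hone j Kd.T (Or.inr (Or.inr rfl))
        rw [mul_add, mul_add]
        linarith

/-- mean value of `WW` -/
lemma WW_int {n : ℕ} {σ η r a T : ℝ} (h : Par n σ η r a T) (hHOL : S_HOL) :
    IntegrableOn (WW n σ η (Real.log T) r) (Gd n a T) := by
  have h1 := h.H1
  have hg : ∀ (j : Fin (n + 1)) (κ : Kd),
      Integrable (fun c => GG Ps σ η (Real.log T) r (mix j κ) c) (volume.restrict (Gd n a T)) :=
    fun j κ => GG_int (j := j) h.r0 h.rη.le h.rσ.le (by linarith [h.r8]) (mix_kinds j κ) (h.cont hHOL j)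
  unfold WW
  refine integrable_finsetSum _ fun j _ => ?_
  exact ((hg j Kd.L).add (hg j Kd.B)).add (hg j Kd.T)

lemma WW_le {n : ℕ} {σ η r a T : ℝ} (h : Par n σ η r a T) (hHOL : S_HOL) {B : ℝ} (hB : 0 ≤ B)
    (hm : ∀ j : Fin (n + 1), ∀ s ∈ Bx j σ η (Real.log T), ∫ c in Gd n a T, ‖Ps c s‖ ≤ B) :
    ∫ c in Gd n a T, WW n σ η (Real.log T) r c ≤
      3 * (n + 1) * ((9 * Real.log T) ^ (n + 1) * B) := by
  have h1 := h.H1
  have hg : ∀ (j : Fin (n + 1)) (κ : Kd),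
      Integrable (fun c => GG Ps σ η (Real.log T) r (mix j κ) c) (volume.restrict (Gd n a T)) :=
    fun j κ => GG_int (j := j) h.r0 h.rη.le h.rσ.le (by linarith [h.r8]) (mix_kinds j κ) (h.cont hHOL j)
  have hb : ∀ (j : Fin (n + 1)) (κ : Kd), ∫ c in Gd n a T, GG Ps σ η (Real.log T) r (mix j κ) c ≤
      (9 * Real.log T) ^ (n + 1) * B := fun j κ =>
    GG_le (j := j) h.r0 h.rη.le h.rσ.le (by linarith [h.r8]) (by linarith [h.ση]) h1 (mix_kinds j κ)
      (h.cont hHOL j) hB (hm j)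
  unfold WW
  have hadd : ∀ j ∈ (Finset.univ : Finset (Fin (n + 1))), Integrable
      (fun c => GG Ps σ η (Real.log T) r (mix j Kd.L) c + GG Ps σ η (Real.log T) r (mix j Kd.B) c +
        GG Ps σ η (Real.log T) r (mix j Kd.T) c) (volume.restrict (Gd n a T)) :=
    fun j _ => ((hg j Kd.L).add (hg j Kd.B)).add (hg j Kd.T)
  rw [integral_finsetSum _ hadd]
  calc _ ≤ ∑ _j : Fin (n + 1), 3 * ((9 * Real.log T) ^ (n + 1) * B) := by
        refine Finset.sum_le_sum fun j _ => ?_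
        have e1 : ∫ c in Gd n a T, (GG Ps σ η (Real.log T) r (mix j Kd.L) c +
            GG Ps σ η (Real.log T) r (mix j Kd.B) c + GG Ps σ η (Real.log T) r (mix j Kd.T) c) =
            (∫ c in Gd n a T, GG Ps σ η (Real.log T) r (mix j Kd.L) c) +
            (∫ c in Gd n a T, GG Ps σ η (Real.log T) r (mix j Kd.B) c) +
            ∫ c in Gd n a T, GG Ps σ η (Real.log T) r (mix j Kd.T) c := by
          have q1 := integral_add (μ := volume.restrict (Gd n a T))
            (f := fun c => GG Ps σ η (Real.log T) r (mix j Kd.L) c +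
              GG Ps σ η (Real.log T) r (mix j Kd.B) c)
            (g := fun c => GG Ps σ η (Real.log T) r (mix j Kd.T) c)
            ((hg j Kd.L).add (hg j Kd.B)) (hg j Kd.T)
          have q2 := integral_add (μ := volume.restrict (Gd n a T))
            (f := fun c => GG Ps σ η (Real.log T) r (mix j Kd.L) c)
            (g := fun c => GG Ps σ η (Real.log T) r (mix j Kd.B) c) (hg j Kd.L) (hg j Kd.B)
          rw [q1, q2]
        rw [e1]
        have := hb j Kd.L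
        have := hb j Kd.B
        have := hb j Kd.T
        linarith
    _ = _ := by
        rw [Finset.sum_const, Finset.card_univ, Fintype.card_fin, nsmul_eq_mul]
        push_cast
        ring

end

end Pool.Agent.Y969.GP
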