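import Pool.Agent.Y969.GP.BR4

set_option autoImplicit false

/-! Project GP: the diagonal part against the main term, in the mean over the shifts. -/

namespace Pool.Agent.Y969.GP

open Complex Filter Topology MeasureTheory Set

noncomputable section

attribute [local irreducible] Ps RR MX

/-- the constants -/
lemma ev_log (n : ℕ) {ε : ℝ} (hε : 0 < ε) (C : ℝ) :
    ∀ᶠ T : ℝ in atTop, C * Real.log T ^ (n + 1) ≤ T ^ ε / 2 := by
  have h1 : (fun x : ℝ => Real.log x ^ ((n + 1 : ℕ) : ℝ)) =o[atTop] fun x : ℝ => x ^ ε :=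
    isLittleO_log_rpow_rpow_atTop _ hε
  have h2 := h1.bound (c := 1 / (2 * (|C| + 1))) (by positivity)
  filter_upwards [h2, eventually_ge_atTop (1:ℝ)] with T hT hT1
  rw [Real.rpow_natCast] at hT
  have hl : 0 ≤ Real.log T := Real.log_nonneg hT1
  rw [Real.norm_of_nonneg (pow_nonneg hl _), Real.norm_of_nonneg (by positivity)] at hT
  have hC : C ≤ |C| + 1 := by linarith [le_abs_self C]
  calc C * Real.log T ^ (n + 1) ≤ (|C| + 1) * Real.log T ^ (n + 1) := by gcongr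
    _ ≤ (|C| + 1) * (1 / (2 * (|C| + 1)) * T ^ ε) := by gcongr
    _ = _ := by field_simp

lemma Gd_sub {n : ℕ} {a T : ℝ} : Gd n a T ⊆ Icc (fun _ => a) (fun _ => T) := by
  intro c hc
  exact ⟨fun j => (hc.1 j).1, fun j => (hc.1 j).2⟩

lemma Gd_vol {n : ℕ} {a T : ℝ} (ha : 0 ≤ a) (haT : a ≤ T) :
    (volume (Gd n a T)).toReal ≤ T ^ n := by
  have h1 : volume (Gd n a T) ≤ ENNReal.ofReal (T ^ n) := by
    refine (measure_mono Gd_sub).trans ?_
    rw [Real.volume_Icc_pi, Finset.prod_const, Finset.card_univ, Fintype.card_fin,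
      ← ENNReal.ofReal_pow (by linarith)]
    refine ENNReal.ofReal_le_ofReal ?_
    exact pow_le_pow_left₀ (by linarith) (by linarith) n
  refine (ENNReal.toReal_mono ENNReal.ofReal_ne_top h1).trans ?_
  rw [ENNReal.toReal_ofReal (pow_nonneg (by linarith) n)]

/-- the mean bound with a majorant -/
def S_BRW : Prop := ∀ n : ℕ, ∃ K : ℝ, 0 < K ∧ ∀ ε : ℝ, 0 < ε → ε < 1 / 32 → ∃ T₀ : ℝ, 2 ≤ T₀ ∧
  ∀ (T a : ℝ) (X : ℕ), T₀ ≤ T → T ^ (1 - ε) ≤ a → a ≤ T → T ^ (1 + ε) ≤ X →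
  ∃ W : (Fin n → ℝ) → ℝ, IntegrableOn W (Gd n a T) ∧ (∀ c, 0 ≤ W c) ∧
    (∫ c in Gd n a T, W c ≤ T ^ ((n : ℝ) + 1 / 2 + K * ε)) ∧
    ∀ c ∈ Gd n a T, ∀ S : ℝ, 1 ≤ S → S ≤ T → ∫ t in (1 : ℝ)..S, ‖MX X c t - RR c t‖ ≤ W c

theorem t_BRW (hTEL : S_TEL) (hTEL2 : S_TEL2) (hHOL : S_HOL) (hHOL2 : S_HOL2) (hMB : S_MB)
    (hMEL : S_MEL) : S_BRW := by
  intro n
  obtain ⟨K0, hK0, hMB'⟩ := hMB n
  refine ⟨K0 + n + 5, by positivity, fun ε hε hε1 => ?_⟩
  obtain ⟨T1, hT1, hmb⟩ := hMB' ε hε (by linarith)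
  obtain ⟨T2, hT2, hmel⟩ := hMEL n ε ε hε hε (by linarith)
  set r : ℝ := ε / 2 with hr
  have hr0 : 0 < r := by rw [hr]; linarith
  set σ : ℝ := 1 / 2 - 2 * ε with hσ
  set C1 : ℝ := (42 / r ^ 2) ^ (n + 1) * 2 ^ (n + 1) * 4 * (3 * (n + 1)) * 9 ^ (n + 1) with hC1
  have hev : ∀ᶠ T : ℝ in atTop, 2 * Real.log T + 2 ≤ T ^ (1 / 2 : ℝ) := by
    have h1 := (isLittleO_log_rpow_atTop (r := 1 / 2) (by norm_num)).bound (c := 1 / 4) (by norm_num)
    have h2 := (tendsto_rpow_atTop (y := 1 / 2) (by norm_num)).eventually_ge_atTop 4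
    filter_upwards [h1, h2, eventually_ge_atTop (1:ℝ)] with T h1 h2 h3
    rw [Real.norm_of_nonneg (Real.log_nonneg h3), Real.norm_of_nonneg (by positivity)] at h1
    linarith
  obtain ⟨T3, hT3⟩ := eventually_atTop.1 ((ev_log n hε C1).and (hev.and
    ((tendsto_rpow_atTop (y := 1 / 2) (by norm_num)).eventually_ge_atTop 2)))
  refine ⟨max (max T1 T2) (max T3 (Real.exp 1)), le_trans hT1 (le_trans (le_max_left _ _)
    (le_max_left _ _)), fun T a X hT ha haT hX => ?_⟩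
  have hT1' : T1 ≤ T := (le_max_left _ _).trans ((le_max_left _ _).trans hT)
  have hT2' : T2 ≤ T := (le_max_right _ _).trans ((le_max_left _ _).trans hT)
  have hT3' : T3 ≤ T := (le_max_left _ _).trans ((le_max_right _ _).trans hT)
  have hTe : Real.exp 1 ≤ T := (le_max_right _ _).trans ((le_max_right _ _).trans hT)
  obtain ⟨g1, g2, g3⟩ := hT3 T hT3'
  have hT0 : 0 < T := (Real.exp_pos 1).trans_le hTe
  have hTge1 : 1 ≤ T := by have := Real.add_one_le_exp 1; linarith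
  have hahalf : T ^ (1 / 2 : ℝ) ≤ a :=
    (Real.rpow_le_rpow_of_exponent_le hTge1 (by linarith)).trans ha
  have hPar : Par n σ ε r a T := by
    refine ⟨hr0, by rw [hr]; linarith, by rw [hr, hσ]; linarith, by rw [hσ]; linarith,
      by rw [hr]; linarith, by rw [hσ]; linarith, by linarith, haT, hTe, g2.trans hahalf⟩
  have hL1 := hPar.H1
  have ha0 : 0 < a := by linarith [hPar.ha]
  have ha1 : 1 ≤ a := by linarith [hPar.ha]
  set B : ℝ := T ^ ((n : ℝ) + K0 * ε) with hB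
  have hB0 : 0 ≤ B := by positivity
  have hWle := WW_le hPar hHOL hB0 fun j s hs => by
    exact hmb a T hT1' hahalf haT j s (by rw [hσ] at hs; exact hs)
  have hWint := WW_int hPar hHOL
  have hWnn : ∀ c, 0 ≤ WW n σ ε (Real.log T) r c := fun c =>
    Finset.sum_nonneg fun j _ => add_nonneg (add_nonneg GG_nonneg GG_nonneg) GG_nonneg
  set C0 : ℝ := (42 / r ^ 2) ^ (n + 1) * ((2 * T) ^ ε) ^ (n + 1) with hC0
  have hC0' : 0 ≤ C0 := by positivity
  set Φ : ℝ := 2 * T ^ (1 - σ) + T * a ^ (-σ) + 1 with hΦ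
  have hΦ0 : 0 ≤ Φ := by positivity
  refine ⟨fun c => 1 + C0 * Φ * WW n σ ε (Real.log T) r c, ?_, fun c => ?_, ?_, ?_⟩
  · exact (integrableOn_const (Gd_compact n a T).measure_lt_top.ne).add (hWint.const_mul _)
  · have := hWnn c
    positivity
  · have hfin : volume (Gd n a T) ≠ ⊤ := (Gd_compact n a T).measure_lt_top.ne
    have e1 : ∫ c in Gd n a T, (1 + C0 * Φ * WW n σ ε (Real.log T) r c) =
        (volume (Gd n a T)).toReal + C0 * Φ * ∫ c in Gd n a T, WW n σ ε (Real.log T) r c := by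
      have q1 := integral_add (μ := volume.restrict (Gd n a T)) (f := fun _ : Fin n → ℝ => (1:ℝ))
        (g := fun c => C0 * Φ * WW n σ ε (Real.log T) r c) (integrableOn_const hfin)
        (hWint.const_mul _)
      rw [q1, setIntegral_const, integral_const_mul, smul_eq_mul, mul_one]
      rfl
    rw [e1]
    have e2 : (volume (Gd n a T)).toReal ≤ T ^ n := Gd_vol ha0.le haT
    -- the factor Φ
    have f1 : T ^ (1 - σ) ≤ T ^ (1 / 2 + 5 / 2 * ε) :=
      Real.rpow_le_rpow_of_exponent_le hTge1 (by rw [hσ]; linarith)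
    have f2 : T * a ^ (-σ) ≤ T ^ (1 / 2 + 5 / 2 * ε) := by
      have hσ0 : 0 ≤ σ := by rw [hσ]; linarith
      have k1 : a ^ (-σ) ≤ (T ^ (1 - ε)) ^ (-σ) :=
        Real.rpow_le_rpow_of_nonpos (by positivity) ha (by linarith)
      rw [← Real.rpow_mul hT0.le] at k1
      calc T * a ^ (-σ) ≤ T ^ (1:ℝ) * T ^ ((1 - ε) * -σ) := by rw [Real.rpow_one]; gcongr
        _ = T ^ (1 + (1 - ε) * -σ) := by rw [← Real.rpow_add hT0]
        _ ≤ _ := Real.rpow_le_rpow_of_exponent_le hTge1 (by rw [hσ]; nlinarith)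
    have f3 : (1:ℝ) ≤ T ^ (1 / 2 + 5 / 2 * ε) := Real.one_le_rpow hTge1 (by linarith)
    have f4 : Φ ≤ 4 * T ^ (1 / 2 + 5 / 2 * ε) := by rw [hΦ]; linarith
    have f5 : ((2 * T) ^ ε) ^ (n + 1) ≤ 2 ^ (n + 1) * T ^ ((n + 1) * ε) := by
      rw [Real.mul_rpow (by norm_num) hT0.le, mul_pow]
      have k1 : ((2:ℝ) ^ ε) ^ (n + 1) ≤ 2 ^ (n + 1) := by
        refine pow_le_pow_left₀ (by positivity) ?_ _
        calc (2:ℝ) ^ ε ≤ 2 ^ (1:ℝ) := Real.rpow_le_rpow_of_exponent_le (by norm_num) (by linarith)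
          _ = 2 := Real.rpow_one 2
      have k2 : (T ^ ε) ^ (n + 1) = T ^ ((n + 1) * ε) := by
        rw [← Real.rpow_natCast, ← Real.rpow_mul hT0.le]
        congr 1; push_cast; ring
      rw [k2]
      gcongr
    have f6 : C0 * Φ * ∫ c in Gd n a T, WW n σ ε (Real.log T) r c ≤
        (C1 * Real.log T ^ (n + 1)) * T ^ ((n : ℝ) + 1 / 2 + (K0 + n + 4) * ε) := by
      have hI0 : 0 ≤ ∫ c in Gd n a T, WW n σ ε (Real.log T) r c := integral_nonneg fun c => hWnn c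
      calc C0 * Φ * ∫ c in Gd n a T, WW n σ ε (Real.log T) r c
          ≤ ((42 / r ^ 2) ^ (n + 1) * (2 ^ (n + 1) * T ^ ((n + 1) * ε))) *
            (4 * T ^ (1 / 2 + 5 / 2 * ε)) *
            (3 * (n + 1) * ((9 * Real.log T) ^ (n + 1) * B)) := by
            rw [hC0]
            have : 0 ≤ (42 / r ^ 2) ^ (n + 1) := by positivity
            gcongr
        _ = (C1 * Real.log T ^ (n + 1)) * (T ^ ((n + 1) * ε) * T ^ (1 / 2 + 5 / 2 * ε) * B) := by
            rw [hC1, mul_pow]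
            ring
        _ ≤ _ := by
            rw [hB, ← Real.rpow_add hT0, ← Real.rpow_add hT0]
            refine mul_le_mul_of_nonneg_left ?_ (by positivity)
            refine Real.rpow_le_rpow_of_exponent_le hTge1 ?_
            nlinarith
    have f7 : (C1 * Real.log T ^ (n + 1)) * T ^ ((n : ℝ) + 1 / 2 + (K0 + n + 4) * ε) ≤
        T ^ ((n : ℝ) + 1 / 2 + (K0 + n + 5) * ε) / 2 := by
      calc _ ≤ (T ^ ε / 2) * T ^ ((n : ℝ) + 1 / 2 + (K0 + n + 4) * ε) := by gcongr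
        _ = (T ^ ε * T ^ ((n : ℝ) + 1 / 2 + (K0 + n + 4) * ε)) / 2 := by ring
        _ = _ := by
            rw [← Real.rpow_add hT0]
            congr 2; ring
    have f8 : T ^ n ≤ T ^ ((n : ℝ) + 1 / 2 + (K0 + n + 5) * ε) / 2 := by
      have k1 : T ^ n = T ^ (n : ℝ) := (Real.rpow_natCast T n).symm
      rw [k1, le_div_iff₀ (by norm_num)]
      calc T ^ (n : ℝ) * 2 ≤ T ^ (n : ℝ) * T ^ (1 / 2 : ℝ) := by gcongr
        _ = T ^ ((n : ℝ) + 1 / 2) := by rw [← Real.rpow_add hT0]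
        _ ≤ _ := Real.rpow_le_rpow_of_exponent_le hTge1 (by
            have : 0 ≤ (K0 + n + 5) * ε := by positivity
            linarith)
    linarith
  · intro c hc S hS hST
    have hpt : ∀ t ∈ Icc (1:ℝ) S, ‖MX X c t - RR c t‖ ≤ T⁻¹ + C0 *
        (t ^ (-σ) + a ^ (-σ) + T⁻¹) * WW n σ ε (Real.log T) r c := by
      intro t ht
      have hcb : ∀ j, 0 ≤ c j ∧ c j ≤ T := fun j => ⟨ha0.le.trans (hc.1 j).1, (hc.1 j).2⟩
      exact point_bd hPar hTEL hTEL2 hHOL hHOL2 hc ht.1 (ht.2.trans hST)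
        (hmel T t σ r X c hT2' hX ht.1 (ht.2.trans hST) hcb)
    have hcontF : ContinuousOn (fun t : ℝ => T⁻¹ + C0 *
        (t ^ (-σ) + a ^ (-σ) + T⁻¹) * WW n σ ε (Real.log T) r c) (Icc 1 S) := by
      have : ContinuousOn (fun t : ℝ => t ^ (-σ)) (Icc 1 S) := fun t ht =>
        (Real.continuousAt_rpow_const t (-σ) (Or.inl (by linarith [ht.1]))).continuousWithinAt
      fun_prop
    have hintF := hcontF.integrableOn_Icc (μ := volume)
    rw [intervalIntegral.integral_of_le hS]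
    have s1 : ∫ t in Ioc 1 S, ‖MX X c t - RR c t‖ ≤ ∫ t in Ioc 1 S, (T⁻¹ + C0 *
        (t ^ (-σ) + a ^ (-σ) + T⁻¹) * WW n σ ε (Real.log T) r c) := by
      refine integral_mono_of_nonneg (Eventually.of_forall fun _ => norm_nonneg _)
        (hintF.mono_set Ioc_subset_Icc_self) ?_
      exact (ae_restrict_iff' measurableSet_Ioc).2 (Eventually.of_forall fun t ht =>
        hpt t ⟨ht.1.le, ht.2⟩)
    refine s1.trans ?_
    rw [← intervalIntegral.integral_of_le hS]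
    have hc1 : IntervalIntegrable (fun t : ℝ => t ^ (-σ)) volume 1 S := by
      refine ContinuousOn.intervalIntegrable ?_
      rw [uIcc_of_le hS]
      intro t ht
      exact (Real.continuousAt_rpow_const t (-σ) (Or.inl (by linarith [ht.1]))).continuousWithinAt
    have e3 : ∫ t in (1:ℝ)..S, (T⁻¹ + C0 * (t ^ (-σ) + a ^ (-σ) + T⁻¹) *
        WW n σ ε (Real.log T) r c) = (S - 1) * T⁻¹ + C0 * ((∫ t in (1:ℝ)..S, t ^ (-σ)) +
          (S - 1) * (a ^ (-σ) + T⁻¹)) * WW n σ ε (Real.log T) r c := by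
      have : ∀ t : ℝ, T⁻¹ + C0 * (t ^ (-σ) + a ^ (-σ) + T⁻¹) * WW n σ ε (Real.log T) r c =
          (T⁻¹ + C0 * (a ^ (-σ) + T⁻¹) * WW n σ ε (Real.log T) r c) +
            (C0 * WW n σ ε (Real.log T) r c) * t ^ (-σ) := fun t => by ring
      simp_rw [this]
      rw [intervalIntegral.integral_add (by simp) (hc1.const_mul _),
        intervalIntegral.integral_const, intervalIntegral.integral_const_mul, smul_eq_mul]
      ring
    rw [e3]
    have hσ1 : σ ≤ 1 / 2 := by rw [hσ]; linarith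
    have hσ0 : 0 ≤ σ := by rw [hσ]; linarith
    have e4 : ∫ t in (1:ℝ)..S, t ^ (-σ) ≤ 2 * T ^ (1 - σ) := by
      rw [integral_rpow (Or.inl (by linarith))]
      have k1 : (0:ℝ) < -σ + 1 := by linarith
      rw [div_le_iff₀ k1, Real.one_rpow]
      have k2 : S ^ (-σ + 1) ≤ T ^ (1 - σ) := by
        rw [show -σ + 1 = 1 - σ by ring]
        exact Real.rpow_le_rpow (by linarith) hST (by linarith)
      have k3 : 0 < T ^ (1 - σ) := by positivity
      nlinarith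
    have e5 : (S - 1) * (a ^ (-σ) + T⁻¹) ≤ T * a ^ (-σ) + 1 := by
      have k1 : 0 ≤ a ^ (-σ) := by positivity
      have k2 : T * T⁻¹ = 1 := mul_inv_cancel₀ hT0.ne'
      have k3 : 0 ≤ T⁻¹ := by positivity
      nlinarith
    have e6 : (S - 1) * T⁻¹ ≤ 1 := by
      have k2 : T * T⁻¹ = 1 := mul_inv_cancel₀ hT0.ne'
      have k3 : 0 ≤ T⁻¹ := by positivity
      nlinarith
    have e7 : (∫ t in (1:ℝ)..S, t ^ (-σ)) + (S - 1) * (a ^ (-σ) + T⁻¹) ≤ Φ := by
      rw [hΦ]; linarith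
    have := hWnn c
    have e8 : C0 * ((∫ t in (1:ℝ)..S, t ^ (-σ)) + (S - 1) * (a ^ (-σ) + T⁻¹)) *
        WW n σ ε (Real.log T) r c ≤ C0 * Φ * WW n σ ε (Real.log T) r c := by gcongr
    linarith

end

end Pool.Agent.Y969.GP
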