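import Pool.Agent.Y969.GP.Def
import Pool.Agent.TH612.CF.Dir

set_option autoImplicit false

/-!
Project GP (helper969): definitions and statements which use the arithmetic factor `FH`.
-/

namespace Pool.Agent.Y969.GP

open Complex Filter Topology MeasureTheory Set
open Pool.Agent.TH612.CF (lh FH Tb dg)

noncomputable section

/-- the vector `a_j = c_j - i s_j` -/
def av {n : ℕ} (c : Fin n → ℝ) (s : Fin (n + 1) → ℂ) : Fin (n + 1) → ℂ :=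
  fun j => (cc c j : ℂ) - I * s j

/-- the vector `b_j = c_j + i s_j` -/
def bv {n : ℕ} (c : Fin n → ℝ) (s : Fin (n + 1) → ℂ) : Fin (n + 1) → ℂ :=
  fun j => (cc c j : ℂ) + I * s j

/-- the entire function `s ζ(1+2s)` -/
def Z1 : ℂ → ℂ := Function.update (fun s : ℂ => s * riemannZeta (1 + 2 * s)) 0 (1 / 2)

/-- the holomorphic function `Ψ_c(s) = F(s,c) ∏_j s_j ζ(1+2s_j) ∏_{i≠l} ζ(1+s_i+s_l+i(c_i-c_l))` -/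
def Ps {n : ℕ} (c : Fin n → ℝ) (s : Fin (n + 1) → ℂ) : ℂ :=
  FH (av c s) (bv c s) * (∏ j, Z1 (s j)) *
    ∏ i, ∏ l ∈ Finset.univ.erase i, riemannZeta (1 + s i + s l + I * (cc c i - cc c l))

/-- the region for the arithmetic factor: `a_j, b_j` in the strip `|Im| ≤ σ`, the other ones in
`|Im| ≤ η` -/
def Tj {k : ℕ} (j : Fin k) (σ η : ℝ) (a b : Fin k → ℂ) : Prop :=
  |(a j).im| ≤ σ ∧ |(b j).im| ≤ σ ∧ ∀ i, i ≠ j → |(a i).im| ≤ η ∧ |(b i).im| ≤ η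

/-- FD: the local factors, one deep variable -/
def S_FD : Prop := ∀ (k : ℕ) (σ η : ℝ), 0 ≤ η → η ≤ σ → σ + η < 1 / 2 → η ≤ 1 / 16 →
  ∃ C κ : ℝ, 0 < C ∧ 0 < κ ∧ ∀ (j : Fin k) (a b : Fin k → ℂ), Tj j σ η a b → ∀ p : ℕ, p.Prime →
    ‖lh a b p - 1‖ ≤ C * (p : ℝ) ^ (-(1 + κ))

/-- FB: the arithmetic factor, one deep variable: bound -/
def S_FB : Prop := ∀ (k : ℕ) (σ η : ℝ), 0 ≤ η → η ≤ σ → σ + η < 1 / 2 → η ≤ 1 / 16 →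
  ∃ C : ℝ, 0 < C ∧ ∀ (j : Fin k) (a b : Fin k → ℂ), Tj j σ η a b → ‖FH a b‖ ≤ C

/-- FHD: the arithmetic factor, one deep variable: differentiability -/
def S_FHD : Prop := ∀ (k : ℕ) (σ η : ℝ), 0 ≤ η → η ≤ σ → σ + η < 1 / 2 → η ≤ 1 / 16 →
  ∀ (j : Fin k) (U : Set ℂ) (a b : ℂ → Fin k → ℂ), IsOpen U →
  (∀ i, DifferentiableOn ℂ (fun s => a s i) U) → (∀ i, DifferentiableOn ℂ (fun s => b s i) U) →
  (∀ s ∈ U, Tj j σ η (a s) (b s)) → DifferentiableOn ℂ (fun s => FH (a s) (b s)) U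

/-- FHC: the arithmetic factor, one deep variable: continuity -/
def S_FHC : Prop := ∀ (k : ℕ) (σ η : ℝ), 0 ≤ η → η ≤ σ → σ + η < 1 / 2 → η ≤ 1 / 16 →
  ∀ (j : Fin k) (X : Type) [TopologicalSpace X] [LocallyCompactSpace X] (U : Set X)
  (a b : X → Fin k → ℂ), IsOpen U →
  (∀ i, ContinuousOn (fun s => a s i) U) → (∀ i, ContinuousOn (fun s => b s i) U) →
  (∀ s ∈ U, Tj j σ η (a s) (b s)) → ContinuousOn (fun s => FH (a s) (b s)) U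

/-- HOL: `Ps` is holomorphic in each variable and jointly continuous (also in `c`) -/
def S_HOL : Prop := ∀ (n : ℕ) (σ η H a T : ℝ), 0 < η → η < σ → σ + η < 1 / 2 → η < 1 / 16 →
  0 < H → 2 * H + 2 ≤ a → a ≤ T →
  (∀ c ∈ Gd n a T, ∀ j : Fin (n + 1), ∀ s ∈ Bx j σ η H,
    DifferentiableAt ℂ (fun z => Ps c (Function.update s j z)) (s j)) ∧
  (∀ j : Fin (n + 1), ContinuousOn (fun p : (Fin n → ℝ) × (Fin (n + 1) → ℂ) => Ps p.1 p.2)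
    (Gd n a T ×ˢ Bx j σ η H))

/-- HOL2: the same near `0` -/
def S_HOL2 : Prop := ∀ (n : ℕ) (a T : ℝ), 1 ≤ a → a ≤ T →
  (∀ c ∈ Gd n a T, ∀ j : Fin (n + 1), ∀ s : Fin (n + 1) → ℂ, (∀ i, ‖s i‖ ≤ 1 / 8) →
    DifferentiableAt ℂ (fun z => Ps c (Function.update s j z)) (s j)) ∧
  ContinuousOn (fun p : (Fin n → ℝ) × (Fin (n + 1) → ℂ) => Ps p.1 p.2)
    (Gd n a T ×ˢ {s | ∀ i, ‖s i‖ ≤ 1 / 8})

/-- MB: mean value of `Ps` over the separated shifts -/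
def S_MB : Prop := ∀ n : ℕ, ∃ K : ℝ, 0 < K ∧ ∀ η : ℝ, 0 < η → η < 1 / 16 → ∃ T₀ : ℝ, 2 ≤ T₀ ∧
  ∀ a T : ℝ, T₀ ≤ T → T ^ (1 / 2 : ℝ) ≤ a → a ≤ T → ∀ j : Fin (n + 1),
  ∀ s ∈ Bx j (1 / 2 - 2 * η) η (Real.log T),
  ∫ c in Gd n a T, ‖Ps c s‖ ≤ T ^ ((n : ℝ) + K * η)

/-- MEL: the diagonal part as an integral over the right sides -/
def S_MEL : Prop := ∀ (n : ℕ) (ε η : ℝ), 0 < ε → 0 < η → η < 1 / 16 → ∃ T₀ : ℝ, 2 ≤ T₀ ∧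
  ∀ (T t σ r : ℝ) (X : ℕ) (c : Fin n → ℝ), T₀ ≤ T → T ^ (1 + ε) ≤ X → 1 ≤ t → t ≤ T →
  (∀ j, 0 ≤ c j ∧ c j ≤ T) →
  ‖MX X c t - hyb σ η (Real.log T) r (fun j => t + cc c j) (fun _ => Kd.R) (Ps c)‖ ≤ T⁻¹

/-- the main term: torus integral of `D(w,c) ∏ (2/w_j) ((t+c_j)/2π)^(w_j)` over `|w_j| = 1/8`, where
`D(w,c) = FH(w,c) ∏_{i,l} ζ(1+w_i+w_l+i(c_i-c_l))` -/
def RR {n : ℕ} (c : Fin n → ℝ) (t : ℝ) : ℂ :=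
  ((2 * Real.pi * I) ^ (n + 1))⁻¹ * torusIntegral (fun w : Fin (n + 1) → ℂ =>
    FH (av c w) (bv c w) * (∏ i, ∏ l, riemannZeta (1 + w i + w l + I * (cc c i - cc c l))) *
      ∏ j, (2 / w j * cexp (w j * (Real.log ((t + cc c j) / (2 * Real.pi)) : ℝ))))
    (fun _ => 0) (fun _ => 1 / 8)

/-- BR: the diagonal part against the main term -/
def S_BR : Prop := ∀ n : ℕ, ∃ K : ℝ, 0 < K ∧ ∀ ε : ℝ, 0 < ε → ε < 1 / 32 → ∃ T₀ : ℝ, 2 ≤ T₀ ∧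
  ∀ (T a S : ℝ) (X : ℕ), T₀ ≤ T → T ^ (1 - ε) ≤ a → a ≤ T → 1 ≤ S → S ≤ T → T ^ (1 + ε) ≤ X →
  ∫ c in Gd n a T, (∫ t in (1 : ℝ)..S, ‖MX X c t - RR c t‖) ≤ T ^ ((n : ℝ) + 1 / 2 + K * ε)

/-- MAIN -/
def S_MAIN : Prop := ∀ (n : ℕ) (ε : ℝ), 0 < ε → ∃ δ T₀ : ℝ, 0 < δ ∧ ∀ T S : ℝ, T₀ ≤ T → 0 ≤ S →
  S ≤ T → volume {c : Fin n → ℝ | (∀ j, 0 ≤ c j ∧ c j ≤ T) ∧
    T ^ (1 / 2 + ε) < ‖((∫ t in (0 : ℝ)..S, ∏ j, ff (t + cc c j) : ℝ) : ℂ) -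
      ∫ t in (0 : ℝ)..S, RR c t‖} ≤ ENNReal.ofReal (T ^ ((n : ℝ) - δ))

end

end Pool.Agent.Y969.GP
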