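import Pool.Agent.Y969.GP.Def

set_option autoImplicit false

/-!
Project GP (helper969): three more statements.
-/

namespace Pool.Agent.Y969.GP

open Complex Filter Topology MeasureTheory Set

noncomputable section

/-- NS: almost all shifts are separated -/
def S_NS : Prop := ∀ n : ℕ, ∃ C : ℝ, 0 < C ∧ ∀ a T : ℝ, 0 < a → a ≤ T →
  volume ({c : Fin n → ℝ | ∀ j, 0 ≤ c j ∧ c j ≤ T} \ Gd n a T) ≤
    ENNReal.ofReal (C * (a / T) * T ^ n)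

/-- E1: the product of zeta values near `t = 0` -/
def S_E1 : Prop := ∀ (n : ℕ) (ε : ℝ), 0 < ε → ∃ T₀ : ℝ, 1 ≤ T₀ ∧ ∀ a T : ℝ, T₀ ≤ T → 0 ≤ a → a ≤ T →
  IntegrableOn (fun c : Fin n → ℝ => ∫ t in (0 : ℝ)..1, ∏ j, ff (t + cc c j))
    (Icc (fun _ => a) (fun _ => T)) ∧
  ∫ c in Icc (fun _ : Fin n => a) (fun _ => T), (∫ t in (0 : ℝ)..1, ∏ j, ff (t + cc c j)) ≤
    T ^ ((n : ℝ) + ε)

/-- CT: continuity of the Dirichlet polynomials and of the diagonal part -/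
def S_CT : Prop := ∀ (n X : ℕ),
  ContinuousOn (fun q : (Fin n → ℝ) × ℝ => ∏ j, PX X (q.2 + cc q.1 j))
    {q | ∀ j, 0 < q.2 + cc q.1 j} ∧
  ContinuousOn (fun q : (Fin n → ℝ) × ℝ => MX X q.1 q.2) {q | ∀ j, 0 < q.2 + cc q.1 j} ∧
  Continuous (fun q : (Fin n → ℝ) × ℝ => ∏ j, ff (q.2 + cc q.1 j))

end

end Pool.Agent.Y969.GP
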