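import Pool.Agent.Y969.GP.BR4

set_option autoImplicit false

/-! Project GP: the main term near `t = 0`, continuity of the main term. -/

namespace Pool.Agent.Y969.GP

open Complex Filter Topology MeasureTheory Set

noncomputable section

attribute [local irreducible] Ps MX

/-- pointwise bound with given bounds of the weights -/
lemma hybn_le' {n : ℕ} {P : (Fin n → ℝ) → (Fin (n + 1) → ℂ) → ℂ} {σ η H r a T : ℝ}
    {k : Fin (n + 1) → Kd} {j : Fin (n + 1)} (hr : 0 < r) (hrη : r ≤ η) (hrσ : r ≤ σ) (hrH : r ≤ H)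
    (hk : ∀ i, i ≠ j → k i = Kd.C ∨ k i = Kd.R)
    (hc : ContinuousOn (fun p : (Fin n → ℝ) × (Fin (n + 1) → ℂ) => P p.1 p.2)
      (Gd n a T ×ˢ Bx j σ η H)) {c : Fin n → ℝ} (hcG : c ∈ Gd n a T) {u A : Fin (n + 1) → ℝ}
    (hA : ∀ i θ, ‖wt σ η H r (u i) (k i) θ‖ ≤ (dom σ η H (k i)).indicator (fun _ => A i) θ)
    (_hA0 : ∀ i, 0 ≤ A i) :
    hybn σ η H r u k (P c) ≤ (∏ i, A i) * GG P σ η H r k c := by
  unfold hybn GG
  have hmeas := (Dm_compact σ η H k).measurableSet
  rw [← integral_indicator hmeas, ← integral_const_mul]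
  have hcont : ContinuousOn (fun θ => ‖P c (pth σ η H r k θ)‖) (Dm σ η H k) := by
    refine ContinuousOn.norm ?_
    have hm : ContinuousOn (fun θ : Fin (n + 1) → ℝ => (c, pth σ η H r k θ)) (Dm σ η H k) :=
      (continuous_const.prodMk (pth_cont σ η H r k)).continuousOn
    exact hc.comp hm fun θ hθ => ⟨hcG, pth_Bx hr hrη hrσ hrH j hk hθ⟩
  have hint : Integrable ((Dm σ η H k).indicator fun θ => ‖P c (pth σ η H r k θ)‖) :=
    (integrable_indicator_iff hmeas).2 (hcont.integrableOn_compact (Dm_compact σ η H k))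
  refine integral_mono_of_nonneg (Eventually.of_forall fun θ => by positivity)
    (hint.const_mul _) (Eventually.of_forall fun θ => ?_)
  simp only
  by_cases hθ : θ ∈ Dm σ η H k
  · rw [indicator_of_mem hθ, mul_comm]
    refine mul_le_mul_of_nonneg_right ?_ (norm_nonneg _)
    refine Finset.prod_le_prod (fun _ _ => norm_nonneg _) fun i _ => ?_
    have := hA i (θ i)
    rwa [indicator_of_mem (hθ i (mem_univ i))] at this
  · rw [indicator_of_notMem hθ, mul_zero]
    have : ∃ i, θ i ∉ dom σ η H (k i) := by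
      by_contra hcon
      push Not at hcon
      exact hθ fun i _ => hcon i
    obtain ⟨i, hi⟩ := this
    have h0 : wt σ η H r (u i) (k i) (θ i) = 0 := by
      unfold wt
      rw [if_neg hi]
    rw [Finset.prod_eq_zero (Finset.mem_univ i) (by rw [h0, norm_zero]), mul_zero]

/-- the main term near `t = 0` -/
lemma RR_small {n : ℕ} {σ η r a T : ℝ} (h : Par n σ η r a T) (hTEL2 : S_TEL2) (hHOL : S_HOL)
    (hHOL2 : S_HOL2) {c : Fin n → ℝ} (hc : c ∈ Gd n a T) {t : ℝ} (ht : 0 < t) (ht1 : t ≤ 1) :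
    ‖RR c t‖ ≤ (42 / r ^ 2) ^ (n + 1) * ((2 * T) ^ η) ^ n * t ^ (-r) *
      GG Ps σ η (Real.log T) r (fun _ => Kd.C) c := by
  have h1 := h.H1
  have hT0 : 0 < T := (Real.exp_pos 1).trans_le h.hT
  have hT1 : 1 ≤ T := by have := Real.add_one_le_exp 1; linarith [h.hT]
  have ha1 : 1 ≤ a := by linarith [h.ha]
  have hη0 : 0 < η := h.r0.trans h.rη
  have hσ1 : σ ≤ 1 := by linarith [h.ση]
  have hη1 : η ≤ 1 := by linarith [h.η16]
  have hr := h.r0
  rw [RR_hyb h hTEL2 hHOL2 hc ht]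
  have hn : ‖hyb σ η (Real.log T) r (fun j => t + cc c j) (fun _ => Kd.C) (Ps c)‖ ≤
      hybn σ η (Real.log T) r (fun j => t + cc c j) (fun _ => Kd.C) (Ps c) := by
    unfold hyb hybn
    refine (norm_integral_le_integral_norm _).trans (le_of_eq ?_)
    congr 1; funext θ
    rw [norm_mul, norm_prod]
  refine hn.trans ?_
  set A : Fin (n + 1) → ℝ := Fin.cons (42 / r ^ 2 * t ^ (-r)) fun _ => 42 / r ^ 2 * (2 * T) ^ η with hA
  have hA0 : ∀ i, 0 ≤ A i := by
    intro i
    refine Fin.cases ?_ (fun i => ?_) i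
    · rw [hA, Fin.cons_zero]; positivity
    · rw [hA, Fin.cons_succ]; positivity
  have hb := hybn_le' (P := Ps) (k := fun _ => Kd.C) (j := 0) (u := fun j => t + cc c j) (A := A)
    h.r0 h.rη.le h.rσ.le (by linarith [h.r8]) (fun _ _ => Or.inl rfl) (h.cont hHOL 0) hc (by
      intro i θ
      refine Fin.cases ?_ (fun i => ?_) i
      · have := wt_le_small (σ := σ) (η := η) (H := Real.log T) (θ := θ) hr (by linarith [h.r8]) ht ht1
        rw [cc_zero, add_zero, hA, Fin.cons_zero]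
        exact this
      · rw [cc_succ, hA, Fin.cons_succ]
        have hu1 : 1 ≤ t + c i := by linarith [(hc.1 i).1]
        have := wt_le (κ := Kd.C) (θ := θ) hr h.rη.le h.rσ.le hη1 hσ1 h1 hu1
        refine this.trans ?_
        refine indicator_le_indicator ?_
        simp only [Ek]
        have hu2 : t + c i ≤ 2 * T := by linarith [(hc.1 i).2]
        have : (t + c i) ^ η ≤ (2 * T) ^ η := Real.rpow_le_rpow (by linarith) hu2 hη0.le
        have hr2 : 0 ≤ 42 / r ^ 2 := by positivity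
        exact mul_le_mul_of_nonneg_left this hr2) hA0
  refine hb.trans (le_of_eq ?_)
  rw [Fin.prod_univ_succ, hA]
  simp only [Fin.cons_zero, Fin.cons_succ, Finset.prod_const, Finset.card_univ, Fintype.card_fin]
  rw [mul_pow, pow_succ]
  ring

/-- continuity of the main term -/
lemma RR_cont {n : ℕ} {a T : ℝ} (ha1 : 1 ≤ a) (haT : a ≤ T) (hHOL2 : S_HOL2) {c : Fin n → ℝ}
    (hc : c ∈ Gd n a T) : ContinuousOn (fun t => RR c t) (Ioi 0) := by
  obtain ⟨g1, g2⟩ := hHOL2 n a T ha1 haT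
  have hcb := cc_bd (by linarith) (by linarith) hc
  rw [continuousOn_iff_continuous_domRestrict]
  have hfun : (Ioi (0:ℝ)).domRestrict (fun t => RR c t) = fun t : Ioi (0:ℝ) =>
      ∫ θ in Icc (0 : Fin (n + 1) → ℝ) (fun _ => 2 * Real.pi),
        Ps c (fun j => gam 1 1 1 (1 / 8) Kd.C (θ j)) *
          ∏ j, (kr ((t : ℝ) + cc c j) (gam 1 1 1 (1 / 8) Kd.C (θ j)) *
            gam 1 1 1 (1 / 8) Kd.C (θ j) / (2 * Real.pi)) := by
    funext t
    rw [domRestrict_apply, RR_eq 1 1 1 c t]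
    unfold hyb
    rw [← integral_indicator measurableSet_Icc]
    refine integral_congr_ae (Eventually.of_forall fun θ => ?_)
    simp only
    by_cases hθ : θ ∈ Icc (0 : Fin (n + 1) → ℝ) (fun _ => 2 * Real.pi)
    · rw [indicator_of_mem hθ]
      congr 1
      refine Finset.prod_congr rfl fun j _ => ?_
      unfold wt
      rw [if_pos (show θ j ∈ dom 1 1 1 Kd.C from ⟨hθ.1 j, hθ.2 j⟩)]
    · rw [indicator_of_notMem hθ]
      have : ∃ j, θ j ∉ dom 1 1 1 Kd.C := by
        by_contra hcon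
        push Not at hcon
        exact hθ ⟨fun j => (hcon j).1, fun j => (hcon j).2⟩
      obtain ⟨j, hj⟩ := this
      have h0 : wt 1 1 1 (1 / 8) ((t : ℝ) + cc c j) Kd.C (θ j) = 0 := by
        unfold wt
        rw [if_neg hj]
      rw [Finset.prod_eq_zero (Finset.mem_univ j) h0, mul_zero]
  rw [hfun]
  haveI : LocallyCompactSpace (Ioi (0:ℝ)) := isOpen_Ioi.locallyCompactSpace
  refine continuous_parametric_integral_of_continuous ?_ isCompact_Icc
  have hgn : ∀ x : ℝ, ‖gam 1 1 1 (1 / 8) Kd.C x‖ = 1 / 8 := by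
    intro x
    unfold gam
    rw [norm_mul, Complex.norm_exp, Complex.norm_real, Real.norm_of_nonneg (by norm_num)]
    simp
  have hg0 : ∀ x : ℝ, gam 1 1 1 (1 / 8) Kd.C x ≠ 0 := fun x => gam_C_ne (by norm_num)
  have hgc : Continuous (gam 1 1 1 (1 / 8) Kd.C) := gam_cont 1 1 1 (1 / 8) Kd.C
  have hP : Continuous (fun θ : Fin (n + 1) → ℝ => Ps c (fun j => gam 1 1 1 (1 / 8) Kd.C (θ j))) := by
    have hm : Continuous (fun θ : Fin (n + 1) → ℝ =>
        ((c, fun j => gam 1 1 1 (1 / 8) Kd.C (θ j)) : (Fin n → ℝ) × (Fin (n + 1) → ℂ))) :=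
      continuous_const.prodMk (continuous_pi fun j => hgc.comp (continuous_apply j))
    have := g2.comp_continuous hm fun θ => ⟨hc, fun i => (hgn _).le⟩
    exact this
  show Continuous (fun p : Ioi (0:ℝ) × (Fin (n + 1) → ℝ) =>
    Ps c (fun j => gam 1 1 1 (1 / 8) Kd.C (p.2 j)) *
      ∏ j, (kr ((p.1 : ℝ) + cc c j) (gam 1 1 1 (1 / 8) Kd.C (p.2 j)) *
        gam 1 1 1 (1 / 8) Kd.C (p.2 j) / (2 * Real.pi)))
  refine (hP.comp continuous_snd).mul ?_
  refine continuous_finsetProd _ fun j _ => ?_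
  have hgj : Continuous (fun p : Ioi (0:ℝ) × (Fin (n + 1) → ℝ) => gam 1 1 1 (1 / 8) Kd.C (p.2 j)) :=
    hgc.comp ((continuous_apply j).comp continuous_snd)
  have hlog : Continuous (fun p : Ioi (0:ℝ) × (Fin (n + 1) → ℝ) =>
      Real.log (((p.1 : ℝ) + cc c j) / (2 * Real.pi))) := by
    refine Continuous.log ?_ ?_
    · exact ((continuous_subtype_val.comp continuous_fst).add continuous_const).div_const _
    · intro p
      have hp : (0:ℝ) < (p.1 : ℝ) := p.1.2
      have := (hcb j).1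
      have hpi := Real.pi_pos
      have : 0 < ((p.1 : ℝ) + cc c j) / (2 * Real.pi) := by positivity
      exact this.ne'
  unfold kr
  refine Continuous.div_const (Continuous.mul ?_ hgj) _
  refine Continuous.div ?_ (hgj.pow 2) fun p => pow_ne_zero _ (hg0 _)
  exact continuous_const.mul (Complex.continuous_exp.comp (hgj.mul (continuous_ofReal.comp hlog)))

end

end Pool.Agent.Y969.GP
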