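import Pool.Agent.Y969.GP.Fin1
import Pool.Agent.Y969.GP.BR5

set_option autoImplicit false

/-! Project GP: the main term near `t = 0` in the mean. -/

namespace Pool.Agent.Y969.GP

open Complex Filter Topology MeasureTheory Set

noncomputable section

attribute [local irreducible] Ps RR MX

/-- the main term near `t = 0`, with a majorant -/
def S_RRW : Prop := ∀ n : ℕ, ∃ K : ℝ, 0 < K ∧ ∀ ε : ℝ, 0 < ε → ε < 1 / 32 → ∃ T₀ : ℝ, 2 ≤ T₀ ∧
  ∀ (T a : ℝ), T₀ ≤ T → T ^ (1 - ε) ≤ a → a ≤ T →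
  ∃ W : (Fin n → ℝ) → ℝ, IntegrableOn W (Gd n a T) ∧ (∀ c, 0 ≤ W c) ∧
    (∫ c in Gd n a T, W c ≤ T ^ ((n : ℝ) + K * ε)) ∧
    ∀ c ∈ Gd n a T, ContinuousOn (fun t => RR c t) (Ioi 0) ∧
      IntervalIntegrable (fun t => RR c t) volume 0 1 ∧
      ∀ s : ℝ, 0 ≤ s → s ≤ 1 → ∫ t in (0 : ℝ)..s, ‖RR c t‖ ≤ W c

theorem t_RRW (hTEL2 : S_TEL2) (hHOL : S_HOL) (hHOL2 : S_HOL2) (hMB : S_MB) : S_RRW := by
  intro n
  obtain ⟨K0, hK0, hMB'⟩ := hMB n
  refine ⟨K0 + n + 5, by positivity, fun ε hε hε1 => ?_⟩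
  obtain ⟨T1, hT1, hmb⟩ := hMB' ε hε (by linarith)
  set r : ℝ := ε / 2 with hr
  have hr0 : 0 < r := by rw [hr]; linarith
  set σ : ℝ := 1 / 2 - 2 * ε with hσ
  set C1 : ℝ := (42 / r ^ 2) ^ (n + 1) * 2 ^ n * 2 * 9 ^ (n + 1) with hC1
  have hev : ∀ᶠ T : ℝ in atTop, 2 * Real.log T + 2 ≤ T ^ (1 / 2 : ℝ) := by
    have h1 := (isLittleO_log_rpow_atTop (r := 1 / 2) (by norm_num)).bound (c := 1 / 4) (by norm_num)
    have h2 := (tendsto_rpow_atTop (y := 1 / 2) (by norm_num)).eventually_ge_atTop 4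
    filter_upwards [h1, h2, eventually_ge_atTop (1:ℝ)] with T h1 h2 h3
    rw [Real.norm_of_nonneg (Real.log_nonneg h3), Real.norm_of_nonneg (by positivity)] at h1
    linarith
  obtain ⟨T3, hT3⟩ := eventually_atTop.1 ((ev_log n hε C1).and hev)
  refine ⟨max T1 (max T3 (Real.exp 1)), le_trans hT1 (le_max_left _ _), fun T a hT ha haT => ?_⟩
  have hT1' : T1 ≤ T := (le_max_left _ _).trans hT
  have hT3' : T3 ≤ T := (le_max_left _ _).trans ((le_max_right _ _).trans hT)
  have hTe : Real.exp 1 ≤ T := (le_max_right _ _).trans ((le_max_right _ _).trans hT)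
  obtain ⟨g1, g2⟩ := hT3 T hT3'
  have hT0 : 0 < T := (Real.exp_pos 1).trans_le hTe
  have hTge1 : 1 ≤ T := by have := Real.add_one_le_exp 1; linarith
  have hahalf : T ^ (1 / 2 : ℝ) ≤ a :=
    (Real.rpow_le_rpow_of_exponent_le hTge1 (by linarith)).trans ha
  have hPar : Par n σ ε r a T := by
    refine ⟨hr0, by rw [hr]; linarith, by rw [hr, hσ]; linarith, by rw [hσ]; linarith,
      by rw [hr]; linarith, by rw [hσ]; linarith, by linarith, haT, hTe, g2.trans hahalf⟩
  have hL1 := hPar.H1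
  have ha0 : 0 < a := by linarith [hPar.ha]
  have ha1 : 1 ≤ a := by linarith [hPar.ha]
  set B : ℝ := T ^ ((n : ℝ) + K0 * ε) with hB
  have hB0 : 0 ≤ B := by positivity
  have hkC : ∀ i : Fin (n + 1), i ≠ 0 → (fun _ : Fin (n + 1) => Kd.C) i = Kd.C ∨
      (fun _ : Fin (n + 1) => Kd.C) i = Kd.R := fun _ _ => Or.inl rfl
  have hGle : ∫ c in Gd n a T, GG Ps σ ε (Real.log T) r (fun _ => Kd.C) c ≤
      (9 * Real.log T) ^ (n + 1) * B :=
    GG_le (j := 0) hr0 hPar.rη.le hPar.rσ.le (by linarith [hPar.r8]) (by linarith [hPar.ση]) hL1 hkC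
      (hPar.cont hHOL 0) hB0 fun s hs => by
        exact hmb a T hT1' hahalf haT 0 s (by rw [hσ] at hs; exact hs)
  have hGint : IntegrableOn (fun c => GG Ps σ ε (Real.log T) r (fun _ => Kd.C) c) (Gd n a T) :=
    GG_int (j := 0) hr0 hPar.rη.le hPar.rσ.le (by linarith [hPar.r8]) hkC (hPar.cont hHOL 0)
  set C0 : ℝ := (42 / r ^ 2) ^ (n + 1) * ((2 * T) ^ ε) ^ n with hC0
  have hC0' : 0 ≤ C0 := by positivity
  refine ⟨fun c => C0 * 2 * GG Ps σ ε (Real.log T) r (fun _ => Kd.C) c, hGint.const_mul _,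
    fun c => mul_nonneg (by positivity) GG_nonneg, ?_, ?_⟩
  · rw [integral_const_mul]
    have f5 : ((2 * T) ^ ε) ^ n ≤ 2 ^ n * T ^ (n * ε) := by
      rw [Real.mul_rpow (by norm_num) hT0.le, mul_pow]
      have k1 : ((2:ℝ) ^ ε) ^ n ≤ 2 ^ n := by
        refine pow_le_pow_left₀ (by positivity) ?_ _
        calc (2:ℝ) ^ ε ≤ 2 ^ (1:ℝ) := Real.rpow_le_rpow_of_exponent_le (by norm_num) (by linarith)
          _ = 2 := Real.rpow_one 2
      have k2 : (T ^ ε) ^ n = T ^ (n * ε) := by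
        rw [← Real.rpow_natCast, ← Real.rpow_mul hT0.le]
        congr 1; ring
      rw [k2]
      gcongr
    have hI0 : 0 ≤ ∫ c in Gd n a T, GG Ps σ ε (Real.log T) r (fun _ => Kd.C) c :=
      integral_nonneg fun c => GG_nonneg
    calc C0 * 2 * ∫ c in Gd n a T, GG Ps σ ε (Real.log T) r (fun _ => Kd.C) c
        ≤ ((42 / r ^ 2) ^ (n + 1) * (2 ^ n * T ^ (n * ε))) * 2 * ((9 * Real.log T) ^ (n + 1) * B) := by
          rw [hC0]
          have : 0 ≤ (42 / r ^ 2) ^ (n + 1) := by positivity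
          gcongr
      _ = (C1 * Real.log T ^ (n + 1)) * (T ^ (n * ε) * B) := by
          rw [hC1, mul_pow]
          ring
      _ ≤ (T ^ ε / 2) * (T ^ (n * ε) * B) := by gcongr
      _ ≤ T ^ ε * (T ^ (n * ε) * B) := by
          refine mul_le_mul_of_nonneg_right ?_ (by positivity)
          have : 0 < T ^ ε := by positivity
          linarith
      _ ≤ _ := by
          rw [hB, ← Real.rpow_add hT0, ← Real.rpow_add hT0]
          refine Real.rpow_le_rpow_of_exponent_le hTge1 ?_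
          nlinarith
  · intro c hc
    have hcont := RR_cont ha1 haT hHOL2 hc
    have hpt : ∀ t ∈ Ioc (0:ℝ) 1, ‖RR c t‖ ≤ C0 * GG Ps σ ε (Real.log T) r (fun _ => Kd.C) c *
        t ^ (-r) := by
      intro t ht
      refine (RR_small hPar hTEL2 hHOL hHOL2 hc ht.1 ht.2).trans (le_of_eq ?_)
      rw [hC0]; ring
    have hr1 : r < 1 := by rw [hr]; linarith
    have hii : ∀ s : ℝ, 0 ≤ s → IntervalIntegrable (fun t : ℝ => t ^ (-r)) volume 0 s := fun s _ =>
      intervalIntegral.intervalIntegrable_rpow' (by linarith)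
    have hI1 : IntegrableOn (fun t => RR c t) (Ioc 0 1) := by
      refine Integrable.mono' (((intervalIntegrable_iff_integrableOn_Ioc_of_le (by norm_num)).1
        (hii 1 (by norm_num))).const_mul (C0 * GG Ps σ ε (Real.log T) r (fun _ => Kd.C) c)) ?_ ?_
      · exact (hcont.mono Ioc_subset_Ioi_self).aestronglyMeasurable measurableSet_Ioc
      · exact (ae_restrict_iff' measurableSet_Ioc).2 (Eventually.of_forall fun t ht => hpt t ht)
    refine ⟨hcont, (intervalIntegrable_iff_integrableOn_Ioc_of_le (by norm_num)).2 hI1, ?_⟩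
    intro s hs0 hs1
    rw [intervalIntegral.integral_of_le hs0]
    have hsi := (intervalIntegrable_iff_integrableOn_Ioc_of_le hs0).1 (hii s hs0)
    calc ∫ t in Ioc 0 s, ‖RR c t‖ ≤ ∫ t in Ioc 0 s,
          C0 * GG Ps σ ε (Real.log T) r (fun _ => Kd.C) c * t ^ (-r) := by
          refine integral_mono_of_nonneg (Eventually.of_forall fun _ => norm_nonneg _)
            (hsi.const_mul _) ?_
          exact (ae_restrict_iff' measurableSet_Ioc).2 (Eventually.of_forall fun t ht =>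
            hpt t ⟨ht.1, ht.2.trans hs1⟩)
      _ = C0 * GG Ps σ ε (Real.log T) r (fun _ => Kd.C) c * ∫ t in Ioc 0 s, t ^ (-r) := by
          rw [integral_const_mul]
      _ ≤ C0 * GG Ps σ ε (Real.log T) r (fun _ => Kd.C) c * 2 := by
          refine mul_le_mul_of_nonneg_left ?_ (mul_nonneg hC0' GG_nonneg)
          rw [← intervalIntegral.integral_of_le hs0, integral_rpow (Or.inl (by linarith))]
          have k1 : (0:ℝ) < -r + 1 := by linarith
          rw [div_le_iff₀ k1, Real.zero_rpow k1.ne', sub_zero]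
          have k2 : s ^ (-r + 1) ≤ 1 := Real.rpow_le_one hs0 hs1 k1.le
          have : r ≤ 1 / 8 := hPar.r8
          linarith
      _ = _ := by ring

end

end Pool.Agent.Y969.GP
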