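import Pool.Agent.Y969.GP.Fin2
import Pool.Agent.Y969.GP.Def3

set_option autoImplicit false

/-! Project GP: the final assembly. -/

namespace Pool.Agent.Y969.GP

open Complex Filter Topology MeasureTheory Set

noncomputable section

attribute [local irreducible] Ps RR MX PX ff cc

lemma mB_eq (n : ℕ) (a T : ℝ) :
    mB n a T = (volume : Measure (Fin n → ℝ)).restrict (Icc (fun _ => a) (fun _ => T)) := by
  unfold mB
  rw [← Set.pi_univ_Icc, volume_pi, Measure.restrict_pi_pi]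

/-- Markov's inequality on a set -/
lemma markov {n : ℕ} {s : Set (Fin n → ℝ)} (hs : MeasurableSet s) {W : (Fin n → ℝ) → ℝ}
    (hW : IntegrableOn W s) (h0 : ∀ c ∈ s, 0 ≤ W c) {B l : ℝ} (hB : ∫ c in s, W c ≤ B) (hl : 0 < l) :
    volume {c | c ∈ s ∧ l ≤ W c} ≤ ENNReal.ofReal (B / l) := by
  have h1 : 0 ≤ᵐ[volume.restrict s] W := (ae_restrict_iff' hs).2 (Eventually.of_forall h0)
  have h2 := mul_meas_ge_le_integral_of_nonneg h1 hW l
  have h3 : {c | c ∈ s ∧ l ≤ W c} = {c | l ≤ W c} ∩ s := by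
    ext c; simp only [mem_ofPred_eq, mem_inter_iff]; tauto
  have h4 : volume {c | c ∈ s ∧ l ≤ W c} = (volume.restrict s) {c | l ≤ W c} := by
    rw [h3, Measure.restrict_apply' hs]
  have h5 : (volume.restrict s) {c | l ≤ W c} ≠ ⊤ := by
    have := hW.measure_ge_lt_top hl
    have h6 : {c | l ≤ W c} ⊆ {c | l ≤ ‖W c‖} := fun c hc =>
      show l ≤ ‖W c‖ from le_trans (show l ≤ W c from hc) (le_abs_self _)
    exact ((measure_mono h6).trans_lt (Integrable.measure_norm_ge_lt_top hW hl)).ne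
  rw [h4, ← ENNReal.ofReal_toReal h5]
  refine ENNReal.ofReal_le_ofReal ?_
  rw [le_div_iff₀ hl, mul_comm]
  exact h2.trans hB

lemma param_int {n : ℕ} {F : (Fin n → ℝ) × ℝ → ℂ} {K : Set (Fin n → ℝ)} (hK : IsCompact K)
    {S : ℝ} (hS : 1 ≤ S) (hF : ContinuousOn F (K ×ˢ Icc 1 S)) :
    IntegrableOn (fun c => ∫ t in (1:ℝ)..S, ‖F (c, t)‖) K ∧
    IntegrableOn (fun c => ‖∫ t in (1:ℝ)..S, F (c, t)‖ ^ 2) K := by
  have hint : Integrable F ((volume.restrict K).prod (volume.restrict (Ioc 1 S))) := by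
    rw [Measure.prod_restrict]
    exact (hF.integrableOn_compact (hK.prod isCompact_Icc)).mono_set
      (prod_mono_right Ioc_subset_Icc_self)
  have : IsFiniteMeasure ((volume : Measure (Fin n → ℝ)).restrict K) :=
    ⟨by rw [Measure.restrict_apply_univ]; exact hK.measure_lt_top⟩
  constructor
  · have h := hint.norm.integral_prod_left
    refine h.congr (Eventually.of_forall fun c => ?_)
    simp only
    rw [intervalIntegral.integral_of_le hS]
  · obtain ⟨M, hM⟩ := (hK.prod isCompact_Icc).exists_bound_of_continuousOn hF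
    have hm := hint.integral_prod_left.aestronglyMeasurable
    have hm2 : AEStronglyMeasurable (fun c => ‖∫ t in (1:ℝ)..S, F (c, t)‖ ^ 2)
        (volume.restrict K) := by
      refine (hm.norm.pow 2).congr (Eventually.of_forall fun c => ?_)
      simp only [Pi.pow_apply]
      rw [intervalIntegral.integral_of_le hS]
    refine Integrable.of_bound hm2 ((M * (S - 1)) ^ 2) ?_
    refine (ae_restrict_iff' hK.measurableSet).2 (Eventually.of_forall fun c hc => ?_)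
    have h1 : ‖∫ t in (1:ℝ)..S, F (c, t)‖ ≤ M * (S - 1) := by
      have := intervalIntegral.norm_integral_le_of_norm_le_const (a := 1) (b := S) (C := M)
        (f := fun t => F (c, t)) (fun t ht => by
          rw [uIoc_of_le hS] at ht
          exact hM (c, t) ⟨hc, ht.1.le, ht.2⟩)
      rwa [abs_of_nonneg (by linarith)] at this
    rw [Real.norm_of_nonneg (by positivity)]
    exact pow_le_pow_left₀ (norm_nonneg _) h1 2

/-- splitting of the integral -/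
lemma split_bd {f : ℝ → ℝ} {P M R : ℝ → ℂ} {S w2 : ℝ} (hf : Continuous f) (hf0 : ∀ t, 0 ≤ f t)
    (hS0 : 0 ≤ S) (hP : ContinuousOn P (Icc 1 (max S 1))) (hM : ContinuousOn M (Icc 1 (max S 1)))
    (hR : ContinuousOn R (Ioi 0)) (hRi : IntervalIntegrable R volume 0 1)
    (hw2 : ∀ s : ℝ, 0 ≤ s → s ≤ 1 → ∫ t in (0:ℝ)..s, ‖R t‖ ≤ w2) :
    ‖((∫ t in (0:ℝ)..S, f t : ℝ) : ℂ) - ∫ t in (0:ℝ)..S, R t‖ ≤
      (∫ t in (0:ℝ)..1, f t) + w2 + (∫ t in (1:ℝ)..(max S 1), ‖((f t : ℝ) : ℂ) - P t‖) +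
      ‖∫ t in (1:ℝ)..(max S 1), (P t - M t)‖ + ∫ t in (1:ℝ)..(max S 1), ‖M t - R t‖ := by
  have hfC : Continuous (fun t => ((f t : ℝ) : ℂ)) := continuous_ofReal.comp hf
  have p1 : 0 ≤ ∫ t in (1:ℝ)..(max S 1), ‖((f t : ℝ) : ℂ) - P t‖ :=
    intervalIntegral.integral_nonneg (le_max_right _ _) fun _ _ => norm_nonneg _
  have p2 : 0 ≤ ∫ t in (1:ℝ)..(max S 1), ‖M t - R t‖ :=
    intervalIntegral.integral_nonneg (le_max_right _ _) fun _ _ => norm_nonneg _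
  have p3 : 0 ≤ ‖∫ t in (1:ℝ)..(max S 1), (P t - M t)‖ := norm_nonneg _
  rcases le_total S 1 with hS1 | hS1
  · have a1 : ‖((∫ t in (0:ℝ)..S, f t : ℝ) : ℂ)‖ ≤ ∫ t in (0:ℝ)..1, f t := by
      rw [Complex.norm_real, Real.norm_of_nonneg (intervalIntegral.integral_nonneg hS0
        fun t _ => hf0 t)]
      exact intervalIntegral.integral_mono_interval le_rfl hS0 hS1
        (Eventually.of_forall hf0) (hf.intervalIntegrable _ _)
    have a2 : ‖∫ t in (0:ℝ)..S, R t‖ ≤ w2 :=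
      (intervalIntegral.norm_integral_le_integral_norm hS0).trans (hw2 S hS0 hS1)
    have := norm_sub_le ((∫ t in (0:ℝ)..S, f t : ℝ) : ℂ) (∫ t in (0:ℝ)..S, R t)
    linarith
  · have hSS : max S 1 = S := max_eq_left hS1
    rw [hSS] at hP hM ⊢
    have cR : ContinuousOn R (Icc 1 S) := hR.mono fun t ht => lt_of_lt_of_le one_pos ht.1
    have ui : ∀ {g : ℝ → ℂ}, ContinuousOn g (Icc 1 S) → IntervalIntegrable g volume 1 S :=
      fun {g} hg => ContinuousOn.intervalIntegrable (by rwa [uIcc_of_le hS1])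
    have c3 : ContinuousOn (fun t => ((f t : ℝ) : ℂ) - P t) (Icc 1 S) := hfC.continuousOn.sub hP
    have c4 : ContinuousOn (fun t => P t - M t) (Icc 1 S) := hP.sub hM
    have c5 : ContinuousOn (fun t => M t - R t) (Icc 1 S) := hM.sub cR
    have c6 : ContinuousOn (fun t => P t - R t) (Icc 1 S) := hP.sub cR
    have hcast : ∀ x y : ℝ, ((∫ t in x..y, f t : ℝ) : ℂ) = ∫ t in x..y, ((f t : ℝ) : ℂ) :=
      fun x y => (intervalIntegral.integral_ofReal).symm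
    have s1 : ((∫ t in (0:ℝ)..S, f t : ℝ) : ℂ) - ∫ t in (0:ℝ)..S, R t =
        (((∫ t in (0:ℝ)..1, f t : ℝ) : ℂ) - ∫ t in (0:ℝ)..1, R t) +
        ((∫ t in (1:ℝ)..S, (((f t : ℝ) : ℂ) - P t)) + ((∫ t in (1:ℝ)..S, (P t - M t)) +
        ∫ t in (1:ℝ)..S, (M t - R t))) := by
      have q1 : (∫ t in (1:ℝ)..S, (P t - M t)) + ∫ t in (1:ℝ)..S, (M t - R t) =
          ∫ t in (1:ℝ)..S, (P t - R t) := by
        rw [← intervalIntegral.integral_add (ui c4) (ui c5)]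
        exact intervalIntegral.integral_congr fun t _ => by simp
      have q2 : (∫ t in (1:ℝ)..S, (((f t : ℝ) : ℂ) - P t)) + ∫ t in (1:ℝ)..S, (P t - R t) =
          ∫ t in (1:ℝ)..S, (((f t : ℝ) : ℂ) - R t) := by
        rw [← intervalIntegral.integral_add (ui c3) (ui c6)]
        exact intervalIntegral.integral_congr fun t _ => by simp
      rw [q1, q2, intervalIntegral.integral_sub (hfC.intervalIntegrable _ _) (ui cR), hcast, hcast,
        ← intervalIntegral.integral_add_adjacent_intervals (hfC.intervalIntegrable 0 1)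
          (hfC.intervalIntegrable 1 S),
        ← intervalIntegral.integral_add_adjacent_intervals hRi (ui cR)]
      ring
    rw [s1]
    have a1 : ‖((∫ t in (0:ℝ)..1, f t : ℝ) : ℂ)‖ ≤ ∫ t in (0:ℝ)..1, f t := by
      rw [Complex.norm_real, Real.norm_of_nonneg (intervalIntegral.integral_nonneg (by norm_num)
        fun t _ => hf0 t)]
    have a2 : ‖∫ t in (0:ℝ)..1, R t‖ ≤ w2 :=
      (intervalIntegral.norm_integral_le_integral_norm (by norm_num)).trans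
        (hw2 1 (by norm_num) le_rfl)
    have a3 : ‖∫ t in (1:ℝ)..S, (((f t : ℝ) : ℂ) - P t)‖ ≤
        ∫ t in (1:ℝ)..S, ‖((f t : ℝ) : ℂ) - P t‖ :=
      intervalIntegral.norm_integral_le_integral_norm hS1
    have a5 : ‖∫ t in (1:ℝ)..S, (M t - R t)‖ ≤ ∫ t in (1:ℝ)..S, ‖M t - R t‖ :=
      intervalIntegral.norm_integral_le_integral_norm hS1
    have b1 := norm_sub_le ((∫ t in (0:ℝ)..1, f t : ℝ) : ℂ) (∫ t in (0:ℝ)..1, R t)
    refine (norm_add_le _ _).trans ?_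
    have b2 := norm_add_le (∫ t in (1:ℝ)..S, (((f t : ℝ) : ℂ) - P t))
      ((∫ t in (1:ℝ)..S, (P t - M t)) + ∫ t in (1:ℝ)..S, (M t - R t))
    have b3 := norm_add_le (∫ t in (1:ℝ)..S, (P t - M t)) (∫ t in (1:ℝ)..S, (M t - R t))
    linarith

theorem t_MAIN (hVAR : S_VAR) (hRPL : S_RPL) (hBRW : S_BRW) (hRRW : S_RRW) (hNS : S_NS)
    (hE1 : S_E1) (hCT : S_CT) : S_MAIN := by
  intro n ε0 hε0
  obtain ⟨K1, hK1, hvar⟩ := hVAR n
  obtain ⟨K2, hK2, hrpl⟩ := hRPL n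
  obtain ⟨K3, hK3, hbrw⟩ := hBRW n
  obtain ⟨K4, hK4, hrrw⟩ := hRRW n
  obtain ⟨C0, hC0, hns⟩ := hNS n
  set e0 : ℝ := min ε0 1 with he0
  have he00 : 0 < e0 := lt_min hε0 one_pos
  have he01 : e0 ≤ 1 := min_le_right _ _
  have he0ε : e0 ≤ ε0 := min_le_left _ _
  set KK : ℝ := K1 + K2 + K3 + K4 + 1 with hKK
  have hKK0 : 0 < KK := by positivity
  set ε : ℝ := min (1 / 64) (e0 / (8 * KK)) with hε
  have hε0' : 0 < ε := lt_min (by norm_num) (by positivity)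
  have hε64 : ε ≤ 1 / 64 := min_le_left _ _
  have hεK : KK * ε ≤ e0 / 8 := by
    have : ε ≤ e0 / (8 * KK) := min_le_right _ _
    calc KK * ε ≤ KK * (e0 / (8 * KK)) := by gcongr
      _ = e0 / 8 := by field_simp
  have hb1 : K1 * ε ≤ e0 / 8 := le_trans (by rw [hKK]; nlinarith) hεK
  have hb2 : K2 * ε ≤ e0 / 8 := le_trans (by rw [hKK]; nlinarith) hεK
  have hb3 : K3 * ε ≤ e0 / 8 := le_trans (by rw [hKK]; nlinarith) hεK
  have hb4 : K4 * ε ≤ e0 / 8 := le_trans (by rw [hKK]; nlinarith) hεK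
  have hb5 : ε ≤ e0 / 8 := le_trans (by rw [hKK]; nlinarith) hεK
  obtain ⟨T1, hT1, hvar'⟩ := hvar (2 * ε) (by linarith) (by linarith)
  obtain ⟨T2, hT2, hrpl'⟩ := hrpl ε hε0' (by linarith)
  obtain ⟨T3, hT3, hbrw'⟩ := hbrw ε hε0' (by linarith)
  obtain ⟨T4, hT4, hrrw'⟩ := hrrw ε hε0' (by linarith)
  obtain ⟨T5, hT5, he1⟩ := hE1 n ε hε0'
  obtain ⟨T6, hT6⟩ := eventually_atTop.1
    (((tendsto_rpow_atTop (y := ε) hε0').eventually_ge_atTop 2).and
      ((tendsto_rpow_atTop (y := ε / 2) (by linarith)).eventually_ge_atTop (C0 + 180)))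
  refine ⟨ε / 2, max (max (max T1 T2) (max T3 T4)) (max (max T5 T6) 1), by linarith,
    fun T S hT hS0 hST => ?_⟩
  have hT1' : T1 ≤ T := ((le_max_left _ _).trans (le_max_left _ _)).trans ((le_max_left _ _).trans hT)
  have hT2' : T2 ≤ T := ((le_max_right _ _).trans (le_max_left _ _)).trans ((le_max_left _ _).trans hT)
  have hT3' : T3 ≤ T := ((le_max_left _ _).trans (le_max_right _ _)).trans ((le_max_left _ _).trans hT)
  have hT4' : T4 ≤ T := ((le_max_right _ _).trans (le_max_right _ _)).trans ((le_max_left _ _).trans hT)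
  have hT5' : T5 ≤ T := ((le_max_left _ _).trans (le_max_left _ _)).trans ((le_max_right _ _).trans hT)
  have hT6' : T6 ≤ T := ((le_max_right _ _).trans (le_max_left _ _)).trans ((le_max_right _ _).trans hT)
  have hTge1 : 1 ≤ T := (le_max_right _ _).trans ((le_max_right _ _).trans hT)
  obtain ⟨g1, g2⟩ := hT6 T hT6'
  have hT0 : 0 < T := by linarith
  -- parameters
  set a : ℝ := T ^ (1 - ε) with ha
  have ha1 : 1 ≤ a := Real.one_le_rpow hTge1 (by linarith)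
  have haT : a ≤ T := by
    rw [ha]
    calc T ^ (1 - ε) ≤ T ^ (1:ℝ) := Real.rpow_le_rpow_of_exponent_le hTge1 (by linarith)
      _ = T := Real.rpow_one T
  have ha2 : T ^ (1 - 2 * ε) ≤ a := Real.rpow_le_rpow_of_exponent_le hTge1 (by linarith)
  set X : ℕ := ⌈T ^ (1 + ε)⌉₊ with hX
  have hX1 : T ^ (1 + ε) ≤ X := Nat.le_ceil _
  have hXpos : 1 ≤ X := Nat.one_le_ceil_iff.2 (by positivity)
  have hX2 : (X : ℝ) ≤ T ^ (1 + 2 * ε) := by
    have h1 : (X : ℝ) < T ^ (1 + ε) + 1 := Nat.ceil_lt_add_one (by positivity)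
    have h2 : (1:ℝ) ≤ T ^ (1 + ε) := Real.one_le_rpow hTge1 (by linarith)
    have h3 : T ^ (1 + 2 * ε) = T ^ (1 + ε) * T ^ ε := by rw [← Real.rpow_add hT0]; congr 1; ring
    rw [h3]
    nlinarith
  set S' : ℝ := max S 1 with hS'
  have hS'1 : 1 ≤ S' := le_max_right _ _
  have hS'T : S' ≤ T := max_le hST hTge1
  -- the box
  set Bo : Set (Fin n → ℝ) := Icc (fun _ => a) (fun _ => T) with hBo
  have hBoc : IsCompact Bo := isCompact_Icc
  have hGB : Gd n a T ⊆ Bo := Gd_sub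
  have hGm : MeasurableSet (Gd n a T) := (Gd_compact n a T).measurableSet
  obtain ⟨W, hWi, hW0, hWm, hWp⟩ := hbrw' T a X hT3' le_rfl haT hX1
  obtain ⟨W2, hW2i, hW20, hW2m, hW2p⟩ := hrrw' T a hT4' le_rfl haT
  obtain ⟨hc1, hc2, hc3⟩ := hCT n X
  -- domain
  have hdom : Bo ×ˢ Icc (1:ℝ) S' ⊆ {q : (Fin n → ℝ) × ℝ | ∀ j, 0 < q.2 + cc q.1 j} := by
    rintro ⟨c, t⟩ ⟨hc, ht⟩ j
    refine Fin.cases ?_ (fun i => ?_) j
    · simp only [cc_zero, add_zero]; linarith [ht.1]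
    · simp only [cc_succ]
      have := hc.1 i
      simp only at this
      linarith [ht.1]
  have hffc : Continuous (fun q : (Fin n → ℝ) × ℝ => ((∏ j, ff (q.2 + cc q.1 j) : ℝ) : ℂ)) :=
    continuous_ofReal.comp hc3
  have hF3c : ContinuousOn (fun q : (Fin n → ℝ) × ℝ =>
      ((∏ j, ff (q.2 + cc q.1 j) : ℝ) : ℂ) - ∏ j, PX X (q.2 + cc q.1 j)) (Bo ×ˢ Icc 1 S') :=
    hffc.continuousOn.sub (hc1.mono hdom)
  have hF4c : ContinuousOn (fun q : (Fin n → ℝ) × ℝ =>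
      ∏ j, PX X (q.2 + cc q.1 j) - MX X q.1 q.2) (Bo ×ˢ Icc 1 S') :=
    (hc1.mono hdom).sub (hc2.mono hdom)
  obtain ⟨i3, -⟩ := param_int hBoc hS'1 hF3c
  obtain ⟨-, i4⟩ := param_int hBoc hS'1 hF4c
  -- the five functions
  set E1 : (Fin n → ℝ) → ℝ := fun c => ∫ t in (0:ℝ)..1, ∏ j, ff (t + cc c j) with hE1d
  set E3 : (Fin n → ℝ) → ℝ := fun c => ∫ t in (1:ℝ)..S',
    ‖((∏ j, ff (t + cc c j) : ℝ) : ℂ) - ∏ j, PX X (t + cc c j)‖ with hE3d
  set E4 : (Fin n → ℝ) → ℝ := fun c => ‖∫ t in (1:ℝ)..S', (∏ j, PX X (t + cc c j) - MX X c t)‖ ^ 2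
    with hE4d
  have hff0 : ∀ u, 0 ≤ ff u := fun u => by unfold ff; positivity
  have hE10 : ∀ c, 0 ≤ E1 c := fun c => intervalIntegral.integral_nonneg (by norm_num) fun t _ =>
    Finset.prod_nonneg fun j _ => hff0 _
  have hE30 : ∀ c, 0 ≤ E3 c := fun c => intervalIntegral.integral_nonneg hS'1 fun t _ => norm_nonneg _
  have hE40 : ∀ c, 0 ≤ E4 c := fun c => by rw [hE4d]; positivity
  obtain ⟨e1i, e1m⟩ := he1 a T hT5' (by linarith) haT
  have mono : ∀ {f : (Fin n → ℝ) → ℝ}, IntegrableOn f Bo → (∀ c, 0 ≤ f c) →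
      ∫ c in Gd n a T, f c ≤ ∫ c in Bo, f c := fun {f} hf h0 =>
    setIntegral_mono_set hf (Eventually.of_forall h0) (HasSubset.Subset.eventuallyLE hGB)
  have m1 : ∫ c in Gd n a T, E1 c ≤ T ^ ((n : ℝ) + ε) := (mono e1i hE10).trans e1m
  have m3 : ∫ c in Gd n a T, E3 c ≤ T ^ ((n : ℝ) + 1 / 2 + K2 * ε) := by
    refine (mono i3 hE30).trans ?_
    have := hrpl' T a S' X hT2' le_rfl haT hS'1 hS'T hX1
    rwa [mB_eq] at this
  have m4 : ∫ c in Gd n a T, E4 c ≤ T ^ ((n : ℝ) + 1 + K1 * (2 * ε)) := by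
    refine (mono i4 hE40).trans ?_
    have := hvar' T a S' X hT1' ha2 haT hS'1 hS'T hXpos hX2
    rwa [mB_eq] at this
  -- thresholds
  set l : ℝ := T ^ (1 / 2 + e0) / 6 with hl
  have hl0 : 0 < l := by positivity
  have v1 := markov hGm (e1i.mono_set hGB) (fun c _ => hE10 c) m1 hl0
  have v2 := markov hGm hW2i (fun c _ => hW20 c) hW2m hl0
  have v3 := markov hGm (i3.mono_set hGB) (fun c _ => hE30 c) m3 hl0
  have v4 := markov hGm (i4.mono_set hGB) (fun c _ => hE40 c) m4 (l := l ^ 2) (by positivity)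
  have v5 := markov hGm hWi (fun c _ => hW0 c) hWm hl0
  -- the size of the exceptional sets
  have q : ∀ x : ℝ, x ≤ (n : ℝ) + 1 / 2 + e0 / 8 → T ^ x / l ≤ 36 * T ^ ((n : ℝ) - ε) := by
    intro x hx
    have h1 : T ^ x / l = 6 * T ^ (x - (1 / 2 + e0)) := by
      rw [hl, Real.rpow_sub hT0]; field_simp
    rw [h1]
    have h2 : T ^ (x - (1 / 2 + e0)) ≤ T ^ ((n : ℝ) - ε) :=
      Real.rpow_le_rpow_of_exponent_le hTge1 (by linarith)
    have h3 : 0 < T ^ ((n : ℝ) - ε) := by positivity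
    nlinarith
  have q1 : T ^ ((n : ℝ) + ε) / l ≤ 36 * T ^ ((n : ℝ) - ε) := q _ (by linarith)
  have q2 : T ^ ((n : ℝ) + K4 * ε) / l ≤ 36 * T ^ ((n : ℝ) - ε) := q _ (by linarith)
  have q3 : T ^ ((n : ℝ) + 1 / 2 + K2 * ε) / l ≤ 36 * T ^ ((n : ℝ) - ε) := q _ (by linarith)
  have q5 : T ^ ((n : ℝ) + 1 / 2 + K3 * ε) / l ≤ 36 * T ^ ((n : ℝ) - ε) := q _ (by linarith)
  have q4 : T ^ ((n : ℝ) + 1 + K1 * (2 * ε)) / l ^ 2 ≤ 36 * T ^ ((n : ℝ) - ε) := by
    have h0 : (T ^ (1 / 2 + e0)) ^ 2 = T ^ (1 + 2 * e0) := by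
      rw [← Real.rpow_natCast, ← Real.rpow_mul hT0.le]
      congr 1; push_cast; ring
    have h1 : T ^ ((n : ℝ) + 1 + K1 * (2 * ε)) / l ^ 2 =
        36 * T ^ ((n : ℝ) + 1 + K1 * (2 * ε) - (1 + 2 * e0)) := by
      rw [hl, div_pow, h0, Real.rpow_sub hT0]; field_simp; norm_num
    rw [h1]
    have h2 : T ^ ((n : ℝ) + 1 + K1 * (2 * ε) - (1 + 2 * e0)) ≤ T ^ ((n : ℝ) - ε) :=
      Real.rpow_le_rpow_of_exponent_le hTge1 (by linarith)
    linarith
  -- the inclusion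
  have hsub : {c : Fin n → ℝ | (∀ j, 0 ≤ c j ∧ c j ≤ T) ∧ T ^ (1 / 2 + ε0) <
      ‖((∫ t in (0 : ℝ)..S, ∏ j, ff (t + cc c j) : ℝ) : ℂ) - ∫ t in (0 : ℝ)..S, RR c t‖} ⊆
      ((((({c : Fin n → ℝ | ∀ j, 0 ≤ c j ∧ c j ≤ T} \ Gd n a T) ∪
        {c | c ∈ Gd n a T ∧ l ≤ E1 c}) ∪ {c | c ∈ Gd n a T ∧ l ≤ W2 c}) ∪
        {c | c ∈ Gd n a T ∧ l ≤ E3 c}) ∪ {c | c ∈ Gd n a T ∧ l ^ 2 ≤ E4 c}) ∪
        {c | c ∈ Gd n a T ∧ l ≤ W c} := by
    rintro c ⟨hcb, hbig⟩
    by_cases hcG : c ∈ Gd n a T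
    swap
    · exact Or.inl (Or.inl (Or.inl (Or.inl (Or.inl ⟨hcb, hcG⟩))))
    by_contra hno
    simp only [mem_union, mem_ofPred_eq, Set.mem_sdiff, not_or, not_and, not_le] at hno
    obtain ⟨⟨⟨⟨⟨-, n1⟩, n2⟩, n3⟩, n4⟩, n5⟩ := hno
    have n1 := n1 hcG
    have n2 := n2 hcG
    have n3 := n3 hcG
    have n4 := n4 hcG
    have n5 := n5 hcG
    obtain ⟨rc, ri, rb⟩ := hW2p c hcG
    have hcB := hGB hcG
    have hm : Continuous (fun t : ℝ => ((c, t) : (Fin n → ℝ) × ℝ)) := by fun_prop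
    have hmaps : MapsTo (fun t : ℝ => ((c, t) : (Fin n → ℝ) × ℝ)) (Icc 1 S') (Bo ×ˢ Icc 1 S') :=
      fun t ht => ⟨hcB, ht⟩
    have kf : Continuous (fun t : ℝ => ∏ j, ff (t + cc c j)) :=
      Continuous.comp (g := fun q : (Fin n → ℝ) × ℝ => ∏ j, ff (q.2 + cc q.1 j)) hc3 hm
    have kP : ContinuousOn (fun t : ℝ => ∏ j, PX X (t + cc c j)) (Icc 1 S') :=
      ContinuousOn.comp (g := fun q : (Fin n → ℝ) × ℝ => ∏ j, PX X (q.2 + cc q.1 j))
        (hc1.mono hdom) hm.continuousOn hmaps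
    have kM : ContinuousOn (fun t : ℝ => MX X c t) (Icc 1 S') :=
      ContinuousOn.comp (g := fun q : (Fin n → ℝ) × ℝ => MX X q.1 q.2)
        (hc2.mono hdom) hm.continuousOn hmaps
    have hs := split_bd (f := fun t : ℝ => ∏ j, ff (t + cc c j))
      (P := fun t : ℝ => ∏ j, PX X (t + cc c j)) (M := fun t : ℝ => MX X c t)
      (R := fun t : ℝ => RR c t) (S := S) (w2 := W2 c) kf
      (fun t => Finset.prod_nonneg fun j _ => hff0 _) hS0 kP kM rc ri rb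
    have a5 := hWp c hcG S' hS'1 hS'T
    have hlt : ‖((∫ t in (0 : ℝ)..S, ∏ j, ff (t + cc c j) : ℝ) : ℂ) -
        ∫ t in (0 : ℝ)..S, RR c t‖ < 5 * l := by
      have a4 : ‖∫ t in (1 : ℝ)..S', (∏ j, PX X (t + cc c j) - MX X c t)‖ < l :=
        lt_of_pow_lt_pow_left₀ 2 hl0.le n4
      have n1' : ∫ t in (0:ℝ)..1, ∏ j, ff (t + cc c j) < l := n1
      have n3' : ∫ t in (1:ℝ)..S', ‖((∏ j, ff (t + cc c j) : ℝ) : ℂ) -
        ∏ j, PX X (t + cc c j)‖ < l := n3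
      linarith
    have h5l : 5 * l ≤ T ^ (1 / 2 + ε0) := by
      have h1 : T ^ (1 / 2 + e0) ≤ T ^ (1 / 2 + ε0) :=
        Real.rpow_le_rpow_of_exponent_le hTge1 (by linarith)
      have h2 : 0 < T ^ (1 / 2 + e0) := by positivity
      rw [hl]; linarith
    linarith
  -- the measure
  have hM : 0 ≤ 36 * T ^ ((n : ℝ) - ε) := by positivity
  have w0 : volume ({c : Fin n → ℝ | ∀ j, 0 ≤ c j ∧ c j ≤ T} \ Gd n a T) ≤
      ENNReal.ofReal (C0 * T ^ ((n : ℝ) - ε)) := by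
    refine (hns a T (by linarith) haT).trans (ENNReal.ofReal_le_ofReal (le_of_eq ?_))
    have h1 : a / T = T ^ (-ε) := by
      rw [ha]
      nth_rewrite 2 [← Real.rpow_one T]
      rw [← Real.rpow_sub hT0]
      congr 1; ring
    rw [h1, ← Real.rpow_natCast, mul_assoc, ← Real.rpow_add hT0]
    congr 2; ring
  have fin : ∀ {x : ℝ} {s : Set (Fin n → ℝ)}, volume s ≤ ENNReal.ofReal x → x ≤ 36 * T ^ ((n : ℝ) - ε) →
      volume s ≤ ENNReal.ofReal (36 * T ^ ((n : ℝ) - ε)) := fun h1 h2 =>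
    h1.trans (ENNReal.ofReal_le_ofReal h2)
  have hTn : 0 < T ^ ((n : ℝ) - ε) := by positivity
  calc volume _ ≤ _ := measure_mono hsub
    _ ≤ ENNReal.ofReal (C0 * T ^ ((n : ℝ) - ε)) + ENNReal.ofReal (36 * T ^ ((n : ℝ) - ε)) +
        ENNReal.ofReal (36 * T ^ ((n : ℝ) - ε)) + ENNReal.ofReal (36 * T ^ ((n : ℝ) - ε)) +
        ENNReal.ofReal (36 * T ^ ((n : ℝ) - ε)) + ENNReal.ofReal (36 * T ^ ((n : ℝ) - ε)) := by
        refine (measure_union_le _ _).trans (add_le_add ?_ (fin v5 q5))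
        refine (measure_union_le _ _).trans (add_le_add ?_ (fin v4 q4))
        refine (measure_union_le _ _).trans (add_le_add ?_ (fin v3 q3))
        refine (measure_union_le _ _).trans (add_le_add ?_ (fin v2 q2))
        exact (measure_union_le _ _).trans (add_le_add w0 (fin v1 q1))
    _ = ENNReal.ofReal ((C0 + 180) * T ^ ((n : ℝ) - ε)) := by
        rw [← ENNReal.ofReal_add (by positivity) hM, ← ENNReal.ofReal_add (by positivity) hM,
          ← ENNReal.ofReal_add (by positivity) hM, ← ENNReal.ofReal_add (by positivity) hM,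
          ← ENNReal.ofReal_add (by positivity) hM]
        congr 1; ring
    _ ≤ _ := by
        refine ENNReal.ofReal_le_ofReal ?_
        calc (C0 + 180) * T ^ ((n : ℝ) - ε) ≤ T ^ (ε / 2) * T ^ ((n : ℝ) - ε) := by gcongr
          _ = T ^ ((n : ℝ) - ε / 2) := by
              rw [← Real.rpow_add hT0]
              congr 1; ring

end

end Pool.Agent.Y969.GP
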