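import Pool.Agent.Y587.GP.V
import Pool.Agent.Y587.GP.Chi
import Pool.Agent.Y891.GP.AFE
import Pool.Agent.Y379.GP.Sp
import Pool.Agent.Y379.GP.Off
import Pool.Agent.Y125.GP.LSW
import Pool.Agent.Y125.GP.VAR
import Pool.Agent.Y545.GP.CR
import Pool.Agent.Y434.GP.RPL
import Pool.Agent.Y155.GP.D1
import Pool.Agent.Y22.GP.Tel
import Pool.Agent.Y319.GP.FB
import Pool.Agent.Y321.GP.FD
import Pool.Agent.Y185.GP.HOL
import Pool.Agent.Y363.GP.ZL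
import Pool.Agent.Y79.GP.ZP
import Pool.Agent.Y258.GP.MB
import Pool.Agent.Y180.GP.Mel
import Pool.Agent.Y961.GP.NS
import Pool.Agent.Y232.GP.E1
import Pool.Agent.Y86.GP.CT
import Pool.Agent.Y969.GP.BR5
import Pool.Agent.Y969.GP.Fin3

set_option autoImplicit false

namespace Pool.Agent.Y969.GP

/-- the main theorem of the project -/
theorem main : S_MAIN := by
  have hV := Pool.Agent.Y587.GP.t_V
  have hCHI := Pool.Agent.Y587.GP.Chi.t_CHI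
  have hAFE := Pool.Agent.Y891.GP.t_AFE hV hCHI
  have hSP := Pool.Agent.Y379.GP.t_SP
  have hLSW := Pool.Agent.Y125.GP.t_LSW hSP
  have hOFF := Pool.Agent.Y379.GP.t_OFF
  have hCR := Pool.Agent.Y545.GP.t_CR hV
  have hVAR := Pool.Agent.Y125.GP.t_VAR hSP hLSW hOFF hCR
  have hSM := Pool.Agent.Y363.GP.t_SM
  have hRPL := Pool.Agent.Y434.GP.t_RPL hAFE hSM
  have hTEL := Pool.Agent.Y22.GP.t_TEL Pool.Agent.Y155.GP.t_D1
  have hTEL2 := Pool.Agent.Y22.GP.t_TEL2 Pool.Agent.Y155.GP.t_D2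
  have hFD := Pool.Agent.Y321.GP.t_FD
  have hFHD := Pool.Agent.Y319.GP.t_FHD hFD
  have hFHC := Pool.Agent.Y319.GP.t_FHC hFD
  have hHOL := Pool.Agent.Y185.GP.t_HOL hFHD hFHC
  have hHOL2 := Pool.Agent.Y185.GP.t_HOL2 hFHD hFHC
  have hMB := Pool.Agent.Y258.GPMB.t_MB (Pool.Agent.Y319.GP.t_FB hFD) Pool.Agent.Y363.GP.t_ZL
    Pool.Agent.Y79.GP.t_ZP
  have hMEL := Pool.Agent.Y180.GP.t_MEL hV
  have hBRW := t_BRW hTEL hTEL2 hHOL hHOL2 hMB hMEL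
  have hRRW := t_RRW hTEL2 hHOL hHOL2 hMB
  exact t_MAIN hVAR hRPL hBRW hRRW Pool.Agent.Y961.GP.t_NS (Pool.Agent.Y232.GP.t_E1 hSM)
    (Pool.Agent.Y86.GP.t_CT hV)

end Pool.Agent.Y969.GP
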